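import Pool.Agent.V5helper89.NCCR.Gl

set_option autoImplicit false

open CategoryTheory TensorProduct

namespace Pool.Agent.V5helper89.NCCR

/-- If the modules over an `A`-algebra `Λ`, projective over `A` and acting on a nonzero finite free
`A`-module, have projective dimension less than `n` then so have the `A`-modules. -/
theorem pd_of_action {A : Type} [CommRing A] (Λ : Type) [Ring Λ] [Algebra A Λ]
    [Module.Projective A Λ] (P : Type) [AddCommGroup P] [Module A P]
    [Module.Free A P] [Nontrivial P] (ρ : Λ →ₐ[A] Module.End A P) (n : ℕ)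
    (h : ∀ Y : ModuleCat.{0} Λ, HasProjectiveDimensionLT Y n)
    (X : Type) [AddCommGroup X] [Module A X] :
    HasProjectiveDimensionLT (ModuleCat.of A X) n := by
  have hA : Nontrivial A := Module.nontrivial A P
  let _ : Module Λ (P ⊗[A] X) := Module.compHom (P ⊗[A] X) ρ.toRingHom
  have h1 : HasProjectiveDimensionLT (ModuleCat.of Λ (P ⊗[A] X)) n := h _
  have hst : IsScalarTower A Λ (P ⊗[A] X) := by
    refine ⟨fun a f x => ?_⟩
    change ρ (a • f) • x = a • (ρ f • x)
    rw [map_smul]
    induction x with
    | zero => simp
    | tmul p x => rfl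
    | add x y hx hy => rw [smul_add, hx, hy, smul_add, smul_add]
  have h2 : HasProjectiveDimensionLT (ModuleCat.of A (P ⊗[A] X)) n := pd_restrict n _ h1
  let b := Module.Free.chooseBasis A P
  have hne : Nonempty (Module.Free.ChooseBasisIndex A P) := b.index_nonempty
  obtain ⟨i⟩ := hne
  let u : X →ₗ[A] P ⊗[A] X := TensorProduct.mk A P X (b i)
  let v : P ⊗[A] X →ₗ[A] X := (TensorProduct.lid A X).toLinearMap ∘ₗ
    (LinearMap.rTensor X (b.coord i))
  have huv : v ∘ₗ u = LinearMap.id := by
    ext x
    simp [u, v]
  let r : Retract (ModuleCat.of A X) (ModuleCat.of A (P ⊗[A] X)) :=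
    { i := ModuleCat.ofHom u
      r := ModuleCat.ofHom v
      retract := by
        rw [← ModuleCat.ofHom_comp, huv]
        rfl }
  exact r.hasProjectiveDimensionLT n

/-- the action of `A ⊗ End(M)` on `A ⊗ M` -/
noncomputable def actEnd (R A M : Type) [CommRing R] [CommRing A] [Algebra R A] [AddCommGroup M]
    [Module R M] : A ⊗[R] Module.End R M →ₐ[A] Module.End A (A ⊗[R] M) :=
  Algebra.TensorProduct.lift (Algebra.ofId A _) (Module.End.baseChangeHom R A M)
    (fun a _ => Algebra.commutes a _)

/-- The endomorphism module of a finite projective module is projective. -/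
lemma projective_end (R M : Type) [CommRing R] [AddCommGroup M] [Module R M]
    [Module.Finite R M] [Module.Projective R M] : Module.Projective R (Module.End R M) := by
  obtain ⟨n, p, s, -, -, hps⟩ := Module.Finite.exists_comp_eq_id_of_projective R M
  have h1 : Module.Projective R (Π₀ _ : Fin n, M) := inferInstance
  have h2 : Module.Projective R (Fin n → M) :=
    Module.Projective.of_equiv (DFinsupp.linearEquivFunOnFintype (R := R) (M := fun _ : Fin n => M))
  let Φ : Module.End R M →ₗ[R] (Fin n → M) :=
    LinearMap.pi fun i => LinearMap.applyₗ (p (Pi.single i 1))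
  let Ψ : (Fin n → M) →ₗ[R] Module.End R M :=
    { toFun := fun v => ∑ i, ((LinearMap.proj i ∘ₗ s : M →ₗ[R] R)).smulRight (v i)
      map_add' := by
        intro v w
        ext x
        simp [LinearMap.sum_apply, smul_add, Finset.sum_add_distrib]
      map_smul' := by
        intro r v
        ext x
        simp [LinearMap.sum_apply, Finset.smul_sum, smul_comm r] }
  refine Module.Projective.of_split Φ Ψ ?_
  ext f x
  have hx : f x = f (p (s x)) := by
    rw [show p (s x) = x from LinearMap.congr_fun hps x]
  change (∑ i, ((LinearMap.proj i ∘ₗ s : M →ₗ[R] R)).smulRight (f (p (Pi.single i 1)))) x = f x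
  rw [LinearMap.sum_apply, hx]
  conv_rhs => rw [pi_eq_sum_univ' (s x), map_sum, map_sum]
  refine Finset.sum_congr rfl fun i _ => ?_
  rw [LinearMap.smulRight_apply, map_smul, map_smul]
  rfl

/-- The local-global principle. -/
theorem pd_of_nccr {R : Type} [CommRing R] [IsNoetherianRing R] (M : Type) [AddCommGroup M]
    [Module R M] [Module.Finite R M] [Module.Projective R M] (d : ℕ)
    (hM : ∀ (q : Ideal R) [q.IsMaximal], Nontrivial (Localization.AtPrime q ⊗[R] M))
    (h : ∀ (q : Ideal R) [q.IsMaximal], ∀ Y : ModuleCat.{0}
      (Localization.AtPrime q ⊗[R] Module.End R M),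
      HasProjectiveDimensionLT Y (d + 1))
    (X : ModuleCat.{0} R) [Module.Finite R X] : HasProjectiveDimensionLT X (d + 1) := by
  have hE := projective_end R M
  have h0 := (ModuleCat.hasProjectiveDimensionLE_iff_forall_maximalSpectrum d X).2
  refine h0 fun q => ?_
  have hq : q.asIdeal.IsMaximal := q.2
  have hq' : q.asIdeal.IsPrime := hq.isPrime
  have hn := hM q.asIdeal
  have hfin : Module.Finite (Localization.AtPrime q.asIdeal)
      (Localization.AtPrime q.asIdeal ⊗[R] M) := inferInstance
  have hproj : Module.Projective (Localization.AtPrime q.asIdeal)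
      (Localization.AtPrime q.asIdeal ⊗[R] M) := inferInstance
  have hfree : Module.Free (Localization.AtPrime q.asIdeal)
      (Localization.AtPrime q.asIdeal ⊗[R] M) := Module.free_of_flat_of_isLocalRing
  exact pd_of_action (Localization.AtPrime q.asIdeal ⊗[R] Module.End R M)
    (Localization.AtPrime q.asIdeal ⊗[R] M) (actEnd R (Localization.AtPrime q.asIdeal) M) (d + 1)
    (h q.asIdeal) (X.localizedModule q.asIdeal.primeCompl)

end Pool.Agent.V5helper89.NCCR
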