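import Pool.Agent.V5helper89.NCCR.Stable
import Pool.Agent.TH480.J295

set_option autoImplicit false

open CategoryTheory Abelian RingTheory.Sequence
open Pool.Agent.TH215.TM Pool.Agent.W506.Hilb

namespace Pool.Agent.V5helper89.NCCR

lemma sub_const_mem (p : S3) : p - MvPolynomial.C (MvPolynomial.constantCoeff p) ∈ (mS : Ideal S3) := by
  induction p using MvPolynomial.induction_on with
  | C a => simp
  | add p q hp hq =>
    have h := Ideal.add_mem _ hp hq
    rw [map_add, map_add]
    convert h using 1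
    ring
  | mul_X p n _ =>
    have h0 : MvPolynomial.constantCoeff (p * MvPolynomial.X n) = (0 : ℂ) := by simp
    rw [h0, map_zero, sub_zero]
    exact Ideal.mul_mem_left _ _ (Ideal.subset_span ⟨n, rfl⟩)

lemma mS_eq : (mS : Ideal S3) = RingHom.ker (MvPolynomial.constantCoeff : S3 →+* ℂ) := by
  apply le_antisymm
  · rw [mS, Ideal.span_le]
    rintro _ ⟨i, rfl⟩
    exact MvPolynomial.constantCoeff_X ℂ i
  · intro p hp
    rw [RingHom.mem_ker] at hp
    have h := sub_const_mem p
    rw [hp, map_zero, sub_zero] at h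
    exact h

lemma mS_maximal : (mS : Ideal S3).IsMaximal := by
  rw [mS_eq]
  exact RingHom.ker_isMaximal_of_surjective _ (fun c => ⟨MvPolynomial.C c, by simp⟩)

section

variable {M : Type} [AddCommGroup M] [Module RR M] [Module S3 M] [IsScalarTower S3 RR M]

/-- A regular sequence of length three in the stable annihilator. -/
theorem exists_seq [Module.Finite S3 M] {k : ℕ} (π : (Fin k → S3) →ₗ[S3] M)
    (hπ : Function.Surjective π) (hK : Module.Projective S3 (LinearMap.ker π))
    (h2 : ∀ x : M, (∀ f : M →ₗ[S3] S3, f x = 0) → x = 0)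
    (h3 : ∀ u : (M →ₗ[S3] S3) →ₗ[S3] S3, ∃ x : M, ∀ f, u f = f x) :
    ∃ a b c : S3, a ∈ JJ S3 RR M ∧ b ∈ JJ S3 RR M ∧ c ∈ JJ S3 RR M ∧
      IsWeaklyRegular S3 [a, b, c] := by
  have hKd : Module.Finite S3 (LinearMap.ker π →ₗ[S3] S3) := finite_dual (LinearMap.ker π)
  have hE := ext_EE π hπ hK h2 h3
  have hmax := mS_maximal
  have hQ : ∀ i : ℕ, i < 3 → Subsingleton (Ext (ModuleCat.of S3 (S3 ⧸ (mS : Ideal S3)))
      (ModuleCat.of S3 S3) i) := by
    intro i hi
    obtain ⟨-, rs, hl, hm, hr⟩ := Pool.Agent.TH159.TM.mv ℂ 3 mS hmax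
    refine ModuleCat.subsingleton_ext_of_exists_isRegular mS
      (ModuleCat.of S3 (S3 ⧸ (mS : Ideal S3))) ?_ (ModuleCat.of S3 S3) ?_ rs hm hr i
      (by rw [hl]; exact hi)
    · rw [Module.support_eq_zeroLocus]
      rw [Ideal.annihilator_quotient]
    · rw [smul_eq_mul, Ideal.mul_top]
      exact hmax.ne_top.lt_top
  have hP : ∀ i : ℕ, i < 3 → Subsingleton (Ext (ModuleCat.of S3
      ((EE π) × (S3 ⧸ (mS : Ideal S3)))) (ModuleCat.of S3 S3) i) := by
    intro i hi
    have hex : Function.Exact (LinearMap.inl S3 (EE π) (S3 ⧸ (mS : Ideal S3)))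
        (LinearMap.snd S3 (EE π) (S3 ⧸ (mS : Ideal S3))) := by
      rintro ⟨x, y⟩
      constructor
      · intro h
        exact ⟨x, Prod.ext rfl (Eq.symm h)⟩
      · rintro ⟨z, hz⟩
        exact (congrArg Prod.snd hz).symm
    have hS := @NCCR.sc_shortExact S3 _ (EE π) ((EE π) × (S3 ⧸ (mS : Ideal S3)))
      (S3 ⧸ (mS : Ideal S3)) _ _ _ _ _ _ (LinearMap.inl S3 (EE π) (S3 ⧸ (mS : Ideal S3)))
      (LinearMap.snd S3 (EE π) (S3 ⧸ (mS : Ideal S3))) LinearMap.inl_injective
      LinearMap.snd_surjective hex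
    have z1 : Limits.IsZero (AddCommGrpCat.of (Ext (ModuleCat.of S3 (EE π))
        (ModuleCat.of S3 S3) i)) :=
      AddCommGrpCat.isZero_of_iff_subsingleton.mpr (hE i hi)
    have z3 : Limits.IsZero (AddCommGrpCat.of (Ext (ModuleCat.of S3 (S3 ⧸ (mS : Ideal S3)))
        (ModuleCat.of S3 S3) i)) :=
      AddCommGrpCat.isZero_of_iff_subsingleton.mpr (hQ i hi)
    exact AddCommGrpCat.subsingleton_of_isZero <| ShortComplex.Exact.isZero_of_both_zeros
      (Ext.contravariant_sequence_exact₂' hS (ModuleCat.of S3 S3) i)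
      (z3.eq_zero_of_src _) (z1.eq_zero_of_tgt _)
  let I : Ideal S3 := JJ S3 RR M ⊓ mS
  have hI : I • (⊤ : Submodule S3 S3) < ⊤ := by
    rw [smul_eq_mul, Ideal.mul_top]
    exact lt_of_le_of_lt inf_le_right hmax.ne_top.lt_top
  have hsupp : Module.support S3 ((EE π) × (S3 ⧸ (mS : Ideal S3))) =
      PrimeSpectrum.zeroLocus (I : Set S3) := by
    rw [Module.support_eq_zeroLocus]
    have hann : Module.annihilator S3 ((EE π) × (S3 ⧸ (mS : Ideal S3))) =
        Module.annihilator S3 (EE π) ⊓ mS := by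
      rw [Module.annihilator_prod, Ideal.annihilator_quotient]
    rw [hann]
    apply le_antisymm
    · exact PrimeSpectrum.zeroLocus_anti_mono (inf_le_inf_right _ (JJ_le_ann M π hπ))
    · intro p hp
      rw [PrimeSpectrum.mem_zeroLocus] at hp ⊢
      rintro a ⟨ha1, ha2⟩
      by_contra ha
      obtain ⟨i, hi⟩ := ann_factor π hπ hK a ha1
      have hx : ∀ j : Fin 3, (MvPolynomial.X j : S3) ∈ p.asIdeal := by
        intro j
        have e1 : a ^ 2 * MvPolynomial.X j ^ 2 ∈ p.asIdeal := by
          apply hp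
          refine ⟨sq_mem_JJ π a i hi j, ?_⟩
          exact Ideal.mul_mem_right _ _ (Ideal.pow_mem_of_mem _ ha2 2 (by norm_num))
        rcases p.2.mem_or_mem e1 with h | h
        · exact absurd (p.2.mem_of_pow_mem _ h) ha
        · exact p.2.mem_of_pow_mem _ h
      have hle : (mS : Ideal S3) ≤ p.asIdeal := by
        rw [mS, Ideal.span_le]
        rintro _ ⟨j, rfl⟩
        exact hx j
      exact ha (hle ha2)
  obtain ⟨rs, hl, hm, hr⟩ := ModuleCat.exists_isRegular_of_exists_subsingleton_ext I 3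
    (ModuleCat.of S3 S3) hI (ModuleCat.of S3 ((EE π) × (S3 ⧸ (mS : Ideal S3)))) hsupp hP
  match rs, hl, hm, hr with
  | [a, b, c], _, hm, hr =>
    exact ⟨a, b, c, (hm a (by simp)).1, (hm b (by simp)).1, (hm c (by simp)).1, hr.1⟩

end

section dual

variable (M : Type) [AddCommGroup M] [Module RR M] [Module S3 M] [IsScalarTower S3 RR M]

/-- the Frobenius duality as a map on forms -/
noncomputable def frobL : (M →ₗ[RR] RR) →ₗ[S3] (M →ₗ[S3] S3) where
  toFun f := (cR 3) ∘ₗ (f.restrictScalars S3)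
  map_add' f g := by
    ext x
    simp
  map_smul' s f := by
    ext x
    simp

lemma frobL_apply (f : M →ₗ[RR] RR) (x : M) : frobL M f x = cR 3 (f x) := rfl

lemma torsionless [Module.IsReflexive RR M] (x : M) (hx : ∀ f : M →ₗ[S3] S3, f x = 0) :
    x = 0 := by
  apply (Module.bijective_dual_eval RR M).1
  rw [map_zero]
  refine LinearMap.ext fun f => ?_
  change f x = 0
  have h : ∀ i : Fin 4, cR i (f x) = 0 := fun i => hx ((cR i) ∘ₗ (f.restrictScalars S3))
  rw [cR_sum (f x)]
  simp [h]

lemma reflexive_S3 [Module.IsReflexive RR M] (u : (M →ₗ[S3] S3) →ₗ[S3] S3) :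
    ∃ x : M, ∀ f, u f = f x := by
  let U : (M →ₗ[RR] RR) →ₗ[S3] S3 := u ∘ₗ frobL M
  obtain ⟨x, hx⟩ := (Module.bijective_dual_eval RR M).2 (frob U)
  refine ⟨x, fun f => ?_⟩
  have h1 : frobL M (frob f) = f := by
    ext v
    rw [frobL_apply, cR3_frob]
  have h2 : cR 3 (frob U (frob f)) = U (frob f) := cR3_frob U (frob f)
  have h3 : frob U (frob f) = frob f x := by rw [← hx]; rfl
  rw [h3, cR3_frob] at h2
  rw [h2]
  change u f = u (frobL M (frob f))
  rw [h1]

end dual

section

variable {S R : Type} [CommRing S] [CommRing R] [Algebra S R] {M : Type} [AddCommGroup M]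
  [Module R M] [Module S M] [IsScalarTower S R M]

lemma syz_proj [Module.Free S R] {k : ℕ} (π : (Fin k → R) →ₗ[R] M)
    (hπ : Function.Surjective π) (hpd : PdLT S M 2) : Module.Projective S (LinearMap.ker π) := by
  have h1 : Module.Projective S (Fin k → R) := inferInstance
  apply projective_of_pdLT_one
  exact pdLT_left ((LinearMap.ker π).subtype.restrictScalars S) (π.restrictScalars S)
    (Submodule.injective_subtype _) hπ (LinearMap.exact_subtype_ker_map π)
    (pdLT_one_of_projective h1) hpd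

lemma torsion_free_of_embedding [IsDomain R] {n : ℕ} (j : M →ₗ[R] (Fin n → R))
    (hj : Function.Injective j) (r : R) (x : M) (hrx : r • x = 0) : r = 0 ∨ x = 0 := by
  by_cases hr : r = 0
  · exact Or.inl hr
  · right
    apply hj
    rw [map_zero]
    funext i
    have h1 : r * j x i = 0 := by
      have := congrFun (congrArg j hrx) i
      rw [map_smul, map_zero] at this
      exact this
    exact (mul_eq_zero.1 h1).resolve_left hr

lemma ext_step [Module.Free S R] {k n m : ℕ} (π : (Fin k → R) →ₗ[R] M)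
    (hπ : Function.Surjective π)
    (j : M →ₗ[R] (Fin n → R)) (A : (Fin n → R) →ₗ[R] (Fin m → R)) (hj : Function.Injective j)
    (hA : Function.Exact j A) (a b c : S) (hreg : IsWeaklyRegular S [a, b, c])
    (hJ : ∀ s ∈ JJ S R M, ∃ ρ : (Fin k → R) →ₗ[R] LinearMap.ker π,
      ∀ x : LinearMap.ker π, ρ (x : Fin k → R) = s • x)
    (ha : a ∈ JJ S R M) (hb : b ∈ JJ S R M) (hc : c ∈ JJ S R M)
    (hΛp : Module.Projective S (Module.End R M)) (φ : LinearMap.ker π →ₗ[R] M) :
    ∃ ψ : (Fin k → R) →ₗ[R] M, ψ ∘ₗ (LinearMap.ker π).subtype = φ := by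
  have hY : IsWeaklyRegular (Fin n → R) [a, b, c] := weaklyRegular_of_flat hreg
  have hZ : IsWeaklyRegular (Fin m → R) [a, b, c] := weaklyRegular_of_flat hreg
  obtain ⟨hM1, hM2⟩ := wr_syzygy (j.restrictScalars S) (A.restrictScalars S) hj hA hY hZ
  have hΛ : IsWeaklyRegular (Module.End R M) [a, b, c] := weaklyRegular_of_flat hreg
  exact ext_of_regular (S := S) π hπ a b c (hJ a ha) (hJ b hb) (hJ c hc) hM1 hM2
    (fun e f g => wr3 hΛ e f g) φ

end

/-- A nonzero finite reflexive `R`-module with Cohen-Macaulay endomorphism ring is projective. -/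
theorem projective_of_modifying_aux (M : Type) [AddCommGroup M] [Module RR M] [Module S3 M]
    [IsScalarTower S3 RR M] [Module.Finite RR M] [Module.IsReflexive RR M] [Nontrivial M]
    (hΛp : Module.Projective S3 (Module.End RR M)) : Module.Projective RR M := by
  have hdom := Pool.Agent.TH480.J295.isDomain_RR
  have hS : Module.Finite S3 M := Module.Finite.trans RR M
  -- the copresentation
  obtain ⟨n, m, j, A, hj, hA⟩ := exists_copres (R := RR) M
  have pY : Module.Projective S3 (Fin n → RR) := inferInstance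
  have pZ : Module.Projective S3 (Fin m → RR) := inferInstance
  have hpd : PdLT S3 M 2 := pd_syzygy gl_S3 (j.restrictScalars S3) (A.restrictScalars S3) hj hA
  -- the stable annihilator
  obtain ⟨k', πS, hπS⟩ := Module.Finite.exists_fin' S3 M
  have hK := ker_projective πS hπS hpd
  obtain ⟨a, b, c, ha, hb, hc, hreg⟩ := exists_seq πS hπS hK (torsionless M) (reflexive_S3 M)
  -- `Ext¹(M, M) = 0`
  obtain ⟨k, π, hπ⟩ := Module.Finite.exists_fin' RR M
  have hJ : ∀ s ∈ JJ S3 RR M, ∃ ρ : (Fin k → RR) →ₗ[RR] LinearMap.ker π,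
      ∀ x : LinearMap.ker π, ρ (x : Fin k → RR) = s • x := by
    intro s hs
    obtain ⟨P, _, _, _, i, p, h⟩ := TT_factor M _ hs
    exact exists_rho (S := S3) π hπ s i p h
  have hext := ext_step π hπ j A hj hA a b c hreg hJ ha hb hc hΛp
  -- the syzygy
  have hN := syzygy_projective π hπ hext (syz_proj π hπ hpd)
  exact projective_of_ext (torsion_free_of_embedding j hj) π hπ hN hext

theorem projective_of_modifying (M : Type) [AddCommGroup M] [Module RR M]
    [Module.Finite RR M] [Module.IsReflexive RR M] [Nontrivial M]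
    (hcm : IsCM RR (Module.End RR M)) : Module.Projective RR M := by
  let _ : Module S3 M := Module.compHom M (algebraMap S3 RR)
  have _ : IsScalarTower S3 RR M := IsScalarTower.of_compHom S3 RR M
  exact projective_of_modifying_aux M (projective_S3 (Module.End RR M) hcm)

end Pool.Agent.V5helper89.NCCR
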