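import Pool.Agent.V5helper89.NCCR.Defs
import Pool.Agent.V5helper89.NCCR.Gl2
import Pool.Agent.V5helper89.NCCR.Modif
import Pool.Agent.TH350.J294
import Pool.Agent.TH159.TM_CM

set_option autoImplicit false

open CategoryTheory Abelian TensorProduct
open Pool.Agent.TH215.TM

namespace Pool.Agent.V5helper89.NCCR

/-- A nonzero finite projective module over a domain has nonzero base change to the localization
at a prime. -/
lemma nontrivial_localization {R : Type} [CommRing R] [IsDomain R] (M : Type) [AddCommGroup M]
    [Module R M] [Module.Projective R M] [Nontrivial M] (q : Ideal R) [q.IsPrime] :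
    Nontrivial (Localization.AtPrime q ⊗[R] M) := by
  have hinj : Function.Injective (Algebra.linearMap R (Localization.AtPrime q)) :=
    IsLocalization.injective _ q.primeCompl_le_nonZeroDivisors
  have h1 : Function.Injective ((Algebra.linearMap R (Localization.AtPrime q)).rTensor M) :=
    Module.Flat.rTensor_preserves_injective_linearMap _ hinj
  have h2 : Function.Injective
      (((Algebra.linearMap R (Localization.AtPrime q)).rTensor M) ∘ₗ
        (TensorProduct.lid R M).symm.toLinearMap) := by
    rw [LinearMap.coe_comp]
    exact h1.comp (TensorProduct.lid R M).symm.injective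
  exact h2.nontrivial

/-- The ring `R = ℂ[x, y, z, w] / (w⁴ + x³ + y³ + z³)` has no non-commutative crepant
resolution. -/
theorem not_isNCCR (M : Type) [AddCommGroup M] [Module RR M] : ¬ IsNCCR RR M := by
  intro h
  have hdom := Pool.Agent.TH480.J295.isDomain_RR
  have h1 := h.nonzero
  have h2 := h.finite
  have h3 := h.reflexive
  have hP : Module.Projective RR M := projective_of_modifying M h.cohenMacaulay
  have hgl : ∀ (q : Ideal RR) [q.IsMaximal], ∀ Y : ModuleCat.{0}
      (Localization.AtPrime q ⊗[RR] Module.End RR M), HasProjectiveDimensionLT Y (3 + 1) := by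
    intro q hq Y
    apply pd_of_globalDim
    rw [h.globalDim_eq q, IsLocalization.AtPrime.ringKrullDim_eq_height q,
      Pool.Agent.TH159.TM.height_RR q hq]
    exact le_refl _
  obtain ⟨N, hN, hext⟩ := Pool.Agent.TH350.J294.unbounded
  have hpd : HasProjectiveDimensionLT N (3 + 1) :=
    pd_of_nccr M 3 (fun q hq => nontrivial_localization M q) hgl N
  obtain ⟨j, hj, hnt⟩ := hext 4
  have hs : Subsingleton (Ext N N j) := by
    have := HasProjectiveDimensionLT.subsingleton N 4 j hj N
    exact this
  exact not_subsingleton _ hs

theorem not_hasNCCR : ¬ HasNCCR RR := by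
  rintro ⟨M, _, _, h⟩
  exact not_isNCCR M h

end Pool.Agent.V5helper89.NCCR
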