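import Pool.Agent.V5helper89.NCCR.ExtProj
import Pool.Agent.W506.H2

set_option autoImplicit false

open CategoryTheory Pool.Agent.W506.Hilb

namespace Pool.Agent.V5helper89.NCCR

section

variable {R : Type} [CommRing R] [IsNoetherianRing R]

lemma finite_dual (M : Type) [AddCommGroup M] [Module R M] [Module.Finite R M] :
    Module.Finite R (Module.Dual R M) := by
  obtain ⟨n, p, hp⟩ := Module.Finite.exists_fin' R M
  let t : (M →ₗ[R] R) →ₗ[R] ((Fin n → R) →ₗ[R] R) := LinearMap.lcomp R R p
  have ht : Function.Injective t := by
    intro a b hab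
    ext x
    obtain ⟨y, rfl⟩ := hp x
    exact LinearMap.congr_fun hab y
  exact Module.Finite.of_injective t ht

/-- A reflexive module is a second syzygy. -/
theorem exists_copres (M : Type) [AddCommGroup M] [Module R M] [Module.Finite R M]
    [Module.IsReflexive R M] : ∃ (n m : ℕ) (j : M →ₗ[R] (Fin n → R))
      (A : (Fin n → R) →ₗ[R] (Fin m → R)), Function.Injective j ∧ Function.Exact j A := by
  have h1 := finite_dual (R := R) M
  obtain ⟨n, p, hp⟩ := Module.Finite.exists_fin' R (Module.Dual R M)
  obtain ⟨m, q, hq⟩ := Module.Finite.exists_fin' R (LinearMap.ker p)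
  let j : M →ₗ[R] (Fin n → R) := LinearMap.pi fun i => p (Pi.single i 1)
  let A : (Fin n → R) →ₗ[R] (Fin m → R) := LinearMap.pi fun l =>
    ∑ i, ((q (Pi.single l 1) : LinearMap.ker p) : Fin n → R) i • LinearMap.proj i
  have hj : ∀ x i, j x i = p (Pi.single i 1) x := fun x i => rfl
  have hA : ∀ v l, A v l = ∑ i, ((q (Pi.single l 1) : LinearMap.ker p) : Fin n → R) i * v i := by
    intro v l
    simp [A]
  have hpx : ∀ (y : Fin n → R) (x : M), p y x = ∑ i, y i * j x i := by
    intro y x
    conv_lhs => rw [pi_eq_sum_univ' y, map_sum]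
    rw [LinearMap.sum_apply]
    refine Finset.sum_congr rfl fun i _ => ?_
    rw [map_smul, LinearMap.smul_apply, smul_eq_mul]
    rfl
  refine ⟨n, m, j, A, ?_, ?_⟩
  · intro x y hxy
    have h2 : ∀ f : Module.Dual R M, f x = f y := by
      intro f
      obtain ⟨z, rfl⟩ := hp f
      rw [hpx, hpx, hxy]
    apply (Module.bijective_dual_eval R M).1
    ext f
    exact h2 f
  · intro v
    constructor
    · intro hv
      obtain ⟨ξ, hξ⟩ := exists_factor p hp (∑ i, v i • LinearMap.proj i : (Fin n → R) →ₗ[R] R) (by
        intro y hy
        obtain ⟨c, hc⟩ := hq ⟨y, hy⟩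
        have h3 : y = ((q c : LinearMap.ker p) : Fin n → R) := by rw [hc]
        have h4 : q c = ∑ l, c l • q (Pi.single l 1) := by
          conv_lhs => rw [pi_eq_sum_univ' c, map_sum]
          refine Finset.sum_congr rfl fun i _ => ?_
          rw [map_smul]
        have h5 : ∀ i, y i = ∑ l, c l * ((q (Pi.single l 1) : LinearMap.ker p) : Fin n → R) i := by
          intro i
          rw [h3, h4]
          simp
        have h6 : ∀ l, ∑ i, ((q (Pi.single l 1) : LinearMap.ker p) : Fin n → R) i * v i = 0 := by
          intro l
          rw [← hA, hv]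
          rfl
        simp only [LinearMap.sum_apply, LinearMap.smul_apply, LinearMap.proj_apply, smul_eq_mul]
        calc ∑ i, v i * y i = ∑ i, ∑ l, c l *
            (((q (Pi.single l 1) : LinearMap.ker p) : Fin n → R) i * v i) := by
              refine Finset.sum_congr rfl fun i _ => ?_
              rw [h5 i, Finset.mul_sum]
              refine Finset.sum_congr rfl fun l _ => ?_
              ring
          _ = ∑ l, c l * ∑ i, ((q (Pi.single l 1) : LinearMap.ker p) : Fin n → R) i * v i := by
              rw [Finset.sum_comm]
              refine Finset.sum_congr rfl fun l _ => ?_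
              rw [Finset.mul_sum]
          _ = 0 := by simp [h6])
      obtain ⟨x, hx⟩ := (Module.bijective_dual_eval R M).2 ξ
      refine ⟨x, ?_⟩
      funext i
      rw [hj]
      have h7 : ξ (p (Pi.single i 1)) = p (Pi.single i 1) x := by rw [← hx]; rfl
      rw [← h7, hξ]
      simp [LinearMap.sum_apply, Pi.single_apply]
    · rintro ⟨x, rfl⟩
      funext l
      rw [hA]
      have h8 : p ((q (Pi.single l 1) : LinearMap.ker p) : Fin n → R) x = 0 := by
        rw [(q (Pi.single l 1)).2]
        rfl
      rw [hpx] at h8
      exact h8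

end

section pd

variable {S : Type} [CommRing S]

/-- A second syzygy over a ring of global dimension at most three has projective dimension at
most one. -/
lemma pd_syzygy (hgl : ∀ M : ModuleCat.{0} S, HasProjectiveDimensionLT M 4)
    {M Y Z : Type} [AddCommGroup M] [Module S M] [AddCommGroup Y] [Module S Y]
    [AddCommGroup Z] [Module S Z] [Module.Projective S Y] [Module.Projective S Z]
    (j : M →ₗ[S] Y) (A : Y →ₗ[S] Z) (hj : Function.Injective j) (hA : Function.Exact j A) :
    PdLT S M 2 := by
  have h1 : PdLT S (LinearMap.range A) 3 :=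
    pdLT_left (LinearMap.range A).subtype (LinearMap.range A).mkQ
      (Submodule.injective_subtype _) (Submodule.mkQ_surjective _)
      (LinearMap.exact_subtype_mkQ _)
      (pdLT_mono (by omega) (pdLT_one_of_projective inferInstance)) (hgl _)
  refine pdLT_left j A.rangeRestrict hj A.surjective_rangeRestrict ?_
    (pdLT_mono (by omega) (pdLT_one_of_projective inferInstance)) h1
  intro y
  rw [← hA y]
  exact ⟨fun h => congrArg Subtype.val h, fun h => Subtype.ext h⟩

lemma ker_projective {M Y : Type} [AddCommGroup M] [Module S M] [AddCommGroup Y] [Module S Y]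
    [Module.Projective S Y] (π : Y →ₗ[S] M) (hπ : Function.Surjective π) (h : PdLT S M 2) :
    Module.Projective S (LinearMap.ker π) := by
  apply projective_of_pdLT_one
  exact pdLT_left (LinearMap.ker π).subtype π (Submodule.injective_subtype _) hπ
    (LinearMap.exact_subtype_ker_map π)
    (pdLT_one_of_projective inferInstance) h

end pd

end Pool.Agent.V5helper89.NCCR
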