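import Mathlib

set_option autoImplicit false

open CategoryTheory

namespace Pool.Agent.V5helper89.NCCR

/-- The global dimension of a ring: the supremum of the projective dimensions of its left
modules. -/
noncomputable def globalDim (Λ : Type) [Ring Λ] : WithBot ℕ∞ :=
  ⨆ X : ModuleCat.{0} Λ, projectiveDimension X

lemma pd_of_globalDim {Λ : Type} [Ring Λ] {n : ℕ} (h : globalDim Λ ≤ n) (X : ModuleCat.{0} Λ) :
    HasProjectiveDimensionLT X (n + 1) := by
  have h1 : projectiveDimension X ≤ n := (le_iSup _ X).trans h
  exact (projectiveDimension_le_iff X n).1 h1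

section ses

variable {Λ : Type} [Ring Λ] {X Y Z : Type} [AddCommGroup X] [AddCommGroup Y] [AddCommGroup Z]
  [Module Λ X] [Module Λ Y] [Module Λ Z]

/-- the short complex of modules given by two linear maps -/
def sc (f : X →ₗ[Λ] Y) (g : Y →ₗ[Λ] Z) (h : Function.Exact f g) :
    ShortComplex (ModuleCat.{0} Λ) :=
  ShortComplex.mk (ModuleCat.ofHom f) (ModuleCat.ofHom g) (by
    ext x
    exact h.apply_apply_eq_zero x)

lemma sc_shortExact (f : X →ₗ[Λ] Y) (g : Y →ₗ[Λ] Z) (hf : Function.Injective f)
    (hg : Function.Surjective g) (h : Function.Exact f g) : (sc f g h).ShortExact := by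
  refine ShortComplex.ShortExact.mk' ?_ ?_ ?_
  · rw [ShortComplex.moduleCat_exact_iff]
    intro x hx
    exact (h x).1 hx
  · exact (ModuleCat.mono_iff_injective _).2 hf
  · exact (ModuleCat.epi_iff_surjective _).2 hg

end ses

lemma pd_zero_iff {Λ : Type} [Ring Λ] (Y : Type) [AddCommGroup Y] [Module Λ Y] :
    HasProjectiveDimensionLT (ModuleCat.of Λ Y) 0 ↔ Subsingleton Y :=
  (hasProjectiveDimensionLT_zero_iff_isZero (ModuleCat.of Λ Y)).trans
    ModuleCat.isZero_iff_subsingleton

lemma pd_one_iff {Λ : Type} [Ring Λ] (Y : Type) [AddCommGroup Y] [Module Λ Y] :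
    HasProjectiveDimensionLT (ModuleCat.of Λ Y) 1 ↔ Module.Projective Λ Y := by
  rw [← projective_iff_hasProjectiveDimensionLT_one, ← IsProjective.iff_projective]

lemma projective_finsupp {A Λ : Type} [CommRing A] [Ring Λ] [Algebra A Λ] [Module.Projective A Λ]
    (Y : Type) : Module.Projective A (Y →₀ Λ) := by
  classical
  have h : Module.Projective A (Π₀ _ : Y, Λ) := inferInstance
  exact Module.Projective.of_equiv (finsuppLequivDFinsupp A).symm

/-- Restriction of scalars to a central subring over which the ring is projective does not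
increase the projective dimension. -/
theorem pd_restrict {A Λ : Type} [CommRing A] [Ring Λ] [Algebra A Λ] [Module.Projective A Λ]
    (n : ℕ) : ∀ (Y : Type) [AddCommGroup Y] [Module A Y] [Module Λ Y] [IsScalarTower A Λ Y],
    HasProjectiveDimensionLT (ModuleCat.of Λ Y) n →
    HasProjectiveDimensionLT (ModuleCat.of A Y) n := by
  have key : ∀ (Y : Type) [AddCommGroup Y] [Module A Y] [Module Λ Y] [IsScalarTower A Λ Y],
      Module.Projective Λ Y → Module.Projective A Y := by
    intro Y _ _ _ _ hY
    obtain ⟨s, hs⟩ := Module.projective_def'.1 hY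
    have := projective_finsupp (A := A) (Λ := Λ) Y
    refine Module.Projective.of_split (s.restrictScalars A)
      ((Finsupp.linearCombination Λ id : (Y →₀ Λ) →ₗ[Λ] Y).restrictScalars A) ?_
    ext y
    exact LinearMap.congr_fun hs y
  induction n with
  | zero =>
    intro Y _ _ _ _ h
    rw [pd_zero_iff] at h ⊢
    exact h
  | succ n ih =>
    intro Y _ _ _ _ h
    match n with
    | 0 =>
      rw [zero_add, pd_one_iff] at h ⊢
      exact key Y h
    | n + 1 =>
      let π : (Y →₀ Λ) →ₗ[Λ] Y := Finsupp.linearCombination Λ id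
      have hπ : Function.Surjective π := Finsupp.linearCombination_id_surjective Λ Y
      have hP : Projective (ModuleCat.of Λ (Y →₀ Λ)) :=
        (IsProjective.iff_projective _).1 inferInstance
      have h0 : HasProjectiveDimensionLT (ModuleCat.of Λ (Y →₀ Λ)) (n + 1) :=
        hasProjectiveDimensionLT_of_ge _ 1 (n + 1) (by omega)
      have hK : HasProjectiveDimensionLT (ModuleCat.of Λ (LinearMap.ker π)) (n + 1) :=
        (sc_shortExact (LinearMap.ker π).subtype π (Submodule.injective_subtype _) hπ
          (LinearMap.exact_subtype_ker_map π)).hasProjectiveDimensionLT_X₁ (n + 1) h0 h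
      have h1 := ih _ hK
      have hPA : Module.Projective A (Y →₀ Λ) := projective_finsupp Y
      have h3 : HasProjectiveDimensionLT (ModuleCat.of A (Y →₀ Λ)) 1 := (pd_one_iff _).2 hPA
      have h2 : HasProjectiveDimensionLT (ModuleCat.of A (Y →₀ Λ)) (n + 1 + 1) :=
        hasProjectiveDimensionLT_of_ge _ 1 (n + 2) (by omega)
      exact (sc_shortExact ((LinearMap.ker π).subtype.restrictScalars A) (π.restrictScalars A)
          (Submodule.injective_subtype _) hπ
          (LinearMap.exact_subtype_ker_map π)).hasProjectiveDimensionLT_X₃ (n + 1) h1 h2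

section morita

open TensorProduct

/-- If the modules over the endomorphism ring of a nonzero finite free `A`-module have projective
dimension at most `n` then so have the `A`-modules. -/
theorem pd_of_end_free {A : Type} [CommRing A] (P : Type) [AddCommGroup P] [Module A P]
    [Module.Free A P] [Module.Finite A P] [Nontrivial P] (n : ℕ)
    (h : ∀ Y : ModuleCat.{0} (Module.End A P), HasProjectiveDimensionLT Y n)
    (X : Type) [AddCommGroup X] [Module A X] :
    HasProjectiveDimensionLT (ModuleCat.of A X) n := by
  have hA : Nontrivial A := Module.nontrivial A P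
  have h1 : HasProjectiveDimensionLT (ModuleCat.of (Module.End A P) (P ⊗[A] X)) n := h _
  have hst : IsScalarTower A (Module.End A P) (P ⊗[A] X) := by
    refine ⟨fun a f x => ?_⟩
    induction x with
    | zero => simp
    | tmul p x => rfl
    | add x y hx hy => rw [smul_add, hx, hy, smul_add, smul_add]
  have h2 : HasProjectiveDimensionLT (ModuleCat.of A (P ⊗[A] X)) n := pd_restrict n _ h1
  let b := Module.Free.chooseBasis A P
  have hne : Nonempty (Module.Free.ChooseBasisIndex A P) := b.index_nonempty
  obtain ⟨i⟩ := hne
  let u : X →ₗ[A] P ⊗[A] X := TensorProduct.mk A P X (b i)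
  let v : P ⊗[A] X →ₗ[A] X := (TensorProduct.lid A X).toLinearMap ∘ₗ
    (LinearMap.rTensor X (b.coord i))
  have huv : v ∘ₗ u = LinearMap.id := by
    ext x
    simp [u, v]
  let r : Retract (ModuleCat.of A X) (ModuleCat.of A (P ⊗[A] X)) :=
    { i := ModuleCat.ofHom u
      r := ModuleCat.ofHom v
      retract := by
        rw [← ModuleCat.ofHom_comp, huv]
        rfl }
  exact r.hasProjectiveDimensionLT n

/-- The local-global principle. -/
theorem pd_of_end {R : Type} [CommRing R] [IsNoetherianRing R] (M : Type) [AddCommGroup M]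
    [Module R M] [Module.Finite R M] [Module.Projective R M] (d : ℕ)
    (hM : ∀ (q : Ideal R) [q.IsMaximal], Nontrivial (LocalizedModule q.primeCompl M))
    (h : ∀ (q : Ideal R) [q.IsMaximal], ∀ Y : ModuleCat.{0}
      (Module.End (Localization.AtPrime q) (LocalizedModule q.primeCompl M)),
      HasProjectiveDimensionLT Y (d + 1))
    (X : ModuleCat.{0} R) [Module.Finite R X] : HasProjectiveDimensionLT X (d + 1) := by
  have h0 := (ModuleCat.hasProjectiveDimensionLE_iff_forall_maximalSpectrum d X).2
  refine h0 fun q => ?_
  have hq : q.asIdeal.IsMaximal := q.2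
  have hq' : q.asIdeal.IsPrime := hq.isPrime
  have hn := hM q.asIdeal
  have hfin : Module.Finite (Localization.AtPrime q.asIdeal)
      (LocalizedModule q.asIdeal.primeCompl M) := inferInstance
  have hproj : Module.Projective (Localization.AtPrime q.asIdeal)
      (LocalizedModule q.asIdeal.primeCompl M) := inferInstance
  have hfree : Module.Free (Localization.AtPrime q.asIdeal)
      (LocalizedModule q.asIdeal.primeCompl M) := Module.free_of_flat_of_isLocalRing
  exact pd_of_end_free (LocalizedModule q.asIdeal.primeCompl M) (d + 1)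
    (h q.asIdeal) (X.localizedModule q.asIdeal.primeCompl)

end morita

end Pool.Agent.V5helper89.NCCR
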