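import Pool.Agent.TH215.TM.Defs
import Pool.Agent.Helper165.Defs
import Pool.Agent.V5helper89.NCCR.Gl

/-!
# Non-commutative crepant resolutions

The notions used in the statement: three-dimensional normal Gorenstein domains of finite type over
the complex numbers, crepant resolutions of their spectra, and non-commutative crepant
resolutions.
-/

set_option autoImplicit false

open CategoryTheory AlgebraicGeometry TensorProduct
open Pool.Agent.Helper165 Pool.Agent.TH215.TM

namespace Pool.Agent.V5helper89.NCCR

/-- `R` is a normal Gorenstein domain of dimension three, of finite type over `ℂ`. Gorenstein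
means that `R` has finite injective dimension over itself (here at most three). -/
structure IsNormalGorensteinThreefold (R : Type) [CommRing R] [Algebra ℂ R] : Prop where
  domain : IsDomain R
  normal : IsIntegrallyClosed R
  gorenstein : HasInjectiveDimensionLT (ModuleCat.of R R) 4
  dim : ringKrullDim R = 3
  finiteType : Algebra.FiniteType ℂ R

/-- `Spec R` has a crepant resolution: there is a proper birational morphism `f : Y ⟶ Spec R`
with `Y` an integral scheme, smooth over `ℂ` of dimension three, and `K_Y = f^* K_{Spec R}`. -/
def HasCrepantResolution (R : Type) [CommRing R] [Algebra ℂ R] : Prop :=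
  ∃ (Y : Scheme.{0}) (_ : IsIntegral Y) (f : Y ⟶ Spec (CommRingCat.of R)),
    IsCrepantResolution 3 f (Spec.map (CommRingCat.ofHom (algebraMap ℂ R)))

/-- `Λ = End_R(M)` is a non-commutative crepant resolution of `R`: the `R`-module `M` is nonzero,
finitely generated and reflexive, `Λ` is a maximal Cohen-Macaulay `R`-module and, for every prime
ideal `p` of `R`, the global dimension of `Λ_p = R_p ⊗_R Λ` is the dimension of `R_p`. -/
structure IsNCCR (R : Type) [CommRing R] (M : Type) [AddCommGroup M] [Module R M] : Prop where
  nonzero : Nontrivial M
  finite : Module.Finite R M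
  reflexive : Module.IsReflexive R M
  cohenMacaulay : IsCM R (Module.End R M)
  globalDim_eq : ∀ (p : Ideal R) [p.IsPrime],
    globalDim (Localization.AtPrime p ⊗[R] Module.End R M) = ringKrullDim (Localization.AtPrime p)

/-- `R` admits a non-commutative crepant resolution. -/
def HasNCCR (R : Type) [CommRing R] : Prop :=
  ∃ (M : Type) (_ : AddCommGroup M) (_ : Module R M), IsNCCR R M

end Pool.Agent.V5helper89.NCCR
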