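import Pool.Agent.V5helper89.NCCR.ExtProj
import Pool.Agent.V5helper89.NCCR.Gl

set_option autoImplicit false

open CategoryTheory Abelian

namespace Pool.Agent.V5helper89.NCCR

section general

variable {R : Type} [CommRing R]

theorem ext_one_zero {T : ShortComplex (ModuleCat.{0} R)} (hT : T.ShortExact) [Projective T.X₂]
    (Y : ModuleCat.{0} R) (h : ∀ v : T.X₁ ⟶ Y, ∃ v' : T.X₂ ⟶ Y, T.f ≫ v' = v) :
    Subsingleton (Ext T.X₃ Y 1) := by
  refine subsingleton_of_forall_eq 0 fun x => ?_
  obtain ⟨x₁, hx₁⟩ := Ext.contravariant_sequence_exact₃ hT Y x (n₀ := 0)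
    (Ext.eq_zero_of_projective _) (by omega)
  obtain ⟨v, rfl⟩ := Ext.addEquiv₀.symm.surjective x₁
  obtain ⟨v', rfl⟩ := h v
  rw [← hx₁]
  change hT.extClass.comp (Ext.mk₀ (T.f ≫ v')) _ = 0
  rw [← Ext.mk₀_comp_mk₀, ← Ext.comp_assoc_of_second_deg_zero, hT.extClass_comp, Ext.zero_comp]

theorem ext_shift {T : ShortComplex (ModuleCat.{0} R)} (hT : T.ShortExact) [Projective T.X₂]
    (Y : ModuleCat.{0} R) (j : ℕ) (h : Subsingleton (Ext T.X₁ Y (j + 1))) :
    Subsingleton (Ext T.X₃ Y (j + 2)) := by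
  refine subsingleton_of_forall_eq 0 fun x => ?_
  obtain ⟨x₁, hx₁⟩ := Ext.contravariant_sequence_exact₃ hT Y x (n₀ := j + 1)
    (Ext.eq_zero_of_projective _) (by omega)
  rw [← hx₁, Subsingleton.elim x₁ 0, Ext.comp_zero]

theorem ext_zero_zero (X Y : ModuleCat.{0} R) (h : ∀ v : X ⟶ Y, v = 0) :
    Subsingleton (Ext X Y 0) := by
  refine subsingleton_of_forall_eq 0 fun x => ?_
  obtain ⟨v, rfl⟩ := Ext.addEquiv₀.symm.surjective x
  rw [h v, map_zero]

end general

section

variable {S : Type} [CommRing S] [IsNoetherianRing S] {M : Type} [AddCommGroup M] [Module S M]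
  {k : ℕ} (π : (Fin k → S) →ₗ[S] M)

/-- the restriction of linear forms to the kernel of `π` -/
def res : ((Fin k → S) →ₗ[S] S) →ₗ[S] (LinearMap.ker π →ₗ[S] S) :=
  LinearMap.lcomp S S (LinearMap.ker π).subtype

omit [IsNoetherianRing S] in
lemma res_apply (h : (Fin k → S) →ₗ[S] S) (x : LinearMap.ker π) :
    res π h x = h (x : Fin k → S) := rfl

/-- `Ext¹(M, S)` -/
abbrev EE : Type := (LinearMap.ker π →ₗ[S] S) ⧸ LinearMap.range (res π)

lemma eval_form {N : Type} [AddCommGroup N] [Module S N] [Module.IsReflexive S N]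
    (u : (N →ₗ[S] S) →ₗ[S] S) : ∃ x : N, ∀ f, u f = f x := by
  obtain ⟨x, hx⟩ := (Module.bijective_dual_eval S N).2 u
  exact ⟨x, fun f => by rw [← hx]; rfl⟩

/-- If `M` is reflexive then the grade of `Ext¹(M, S)` is at least three. -/
theorem ext_EE (hπ : Function.Surjective π) (hK : Module.Projective S (LinearMap.ker π))
    (h2 : ∀ x : M, (∀ f : M →ₗ[S] S, f x = 0) → x = 0)
    (h3 : ∀ u : (M →ₗ[S] S) →ₗ[S] S, ∃ x : M, ∀ f, u f = f x) (i : ℕ) (hi : i < 3) :
    Subsingleton (Ext (ModuleCat.of S (EE π)) (ModuleCat.of S S) i) := by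
  have hKf : Module.Finite S (LinearMap.ker π) := inferInstance
  have hKr : Module.IsReflexive S (LinearMap.ker π) := inferInstance
  have hKd : Module.Projective S (LinearMap.ker π →ₗ[S] S) :=
    inferInstanceAs (Module.Projective S (Module.Dual S (LinearMap.ker π)))
  have hYd : Module.Projective S ((Fin k → S) →ₗ[S] S) :=
    inferInstanceAs (Module.Projective S (Module.Dual S (Fin k → S)))
  -- the two sequences
  let L := LinearMap.range (res π)
  have T1 := @sc_shortExact S _ L (LinearMap.ker π →ₗ[S] S) (EE π) _ _ _ _ _ _ L.subtype L.mkQ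
    (Submodule.injective_subtype L) (Submodule.mkQ_surjective L) (LinearMap.exact_subtype_mkQ L)
  have hex : Function.Exact (LinearMap.ker (res π)).subtype (res π).rangeRestrict := by
    intro y
    constructor
    · intro h
      exact ⟨⟨y, congrArg Subtype.val h⟩, rfl⟩
    · rintro ⟨x, rfl⟩
      exact Subtype.ext x.2
  have T2 := @sc_shortExact S _ (LinearMap.ker (res π)) ((Fin k → S) →ₗ[S] S) L _ _ _ _ _ _
    (LinearMap.ker (res π)).subtype (res π).rangeRestrict
    (Submodule.injective_subtype _) (res π).surjective_rangeRestrict hex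
  have P1 : Projective (ModuleCat.of S (LinearMap.ker π →ₗ[S] S)) :=
    (IsProjective.iff_projective _).1 hKd
  have P2 : Projective (ModuleCat.of S ((Fin k → S) →ₗ[S] S)) :=
    (IsProjective.iff_projective _).1 hYd
  have E2 : Subsingleton (Ext (ModuleCat.of S L) (ModuleCat.of S S) 1) := by
    refine @ext_one_zero S _ _ T2 P2 (ModuleCat.of S S) fun v => ?_
    let v' : LinearMap.ker (res π) →ₗ[S] S := v.hom
    let t : (M →ₗ[S] S) →ₗ[S] LinearMap.ker (res π) :=
      (LinearMap.lcomp S S π).codRestrict _ (by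
        intro h
        rw [LinearMap.mem_ker]
        ext x
        rw [res_apply]
        change h (π x) = 0
        rw [x.2, map_zero])
    obtain ⟨m, hm⟩ := h3 (v' ∘ₗ t)
    obtain ⟨x, rfl⟩ := hπ m
    refine ⟨ModuleCat.ofHom (Module.Dual.eval S (Fin k → S) x), ?_⟩
    apply ModuleCat.hom_ext
    ext f
    obtain ⟨h, hh⟩ := exists_factor π hπ f.1 (by
      intro y hy
      have := LinearMap.congr_fun f.2 ⟨y, hy⟩
      exact this)
    have e1 : f = t h := by
      apply Subtype.ext
      refine LinearMap.ext fun y => ?_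
      exact (hh y).symm
    change f.1 x = v' f
    rw [← hh x, e1]
    exact (hm h).symm
  interval_cases i
  · refine ext_zero_zero _ _ fun u => ?_
    let u' : EE π →ₗ[S] S := u.hom
    obtain ⟨κ, hκ⟩ := eval_form (u' ∘ₗ L.mkQ)
    have h0 : κ = 0 := by
      apply Subtype.ext
      funext i
      have e1 := hκ (res π (LinearMap.proj i))
      rw [res_apply] at e1
      have e2 : L.mkQ (res π (LinearMap.proj i)) = 0 := by
        rw [Submodule.mkQ_apply, Submodule.Quotient.mk_eq_zero]
        exact ⟨_, rfl⟩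
      rw [LinearMap.comp_apply, e2, map_zero] at e1
      exact e1.symm
    apply ModuleCat.hom_ext
    refine LinearMap.ext fun y => ?_
    obtain ⟨f, rfl⟩ := L.mkQ_surjective y
    have e3 := hκ f
    rw [h0, map_zero] at e3
    exact e3
  · refine @ext_one_zero S _ _ T1 P1 (ModuleCat.of S S) fun v => ?_
    let v' : L →ₗ[S] S := v.hom
    obtain ⟨x, hx⟩ := eval_form (v' ∘ₗ (res π).rangeRestrict)
    have hxK : π x = 0 := by
      apply h2
      intro f
      have e1 := hx (f ∘ₗ π)
      have e2 : (res π).rangeRestrict (f ∘ₗ π) = 0 := by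
        apply Subtype.ext
        ext y
        change f (π y) = 0
        rw [y.2, map_zero]
      rw [LinearMap.comp_apply, e2, map_zero] at e1
      exact e1.symm
    refine ⟨ModuleCat.ofHom (Module.Dual.eval S (LinearMap.ker π) ⟨x, hxK⟩), ?_⟩
    apply ModuleCat.hom_ext
    ext f
    obtain ⟨h, hh⟩ := f.2
    have e3 : f = (res π).rangeRestrict h := Subtype.ext hh.symm
    change f.1 ⟨x, hxK⟩ = v' f
    rw [← hh, res_apply, e3]
    exact (hx h).symm
  · exact @ext_shift S _ _ T1 P1 (ModuleCat.of S S) 0 E2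

/-- elements of the annihilator of `Ext¹(M, S)` factor through a free module -/
lemma ann_factor (hπ : Function.Surjective π) (hK : Module.Projective S (LinearMap.ker π))
    (s : S) (hs : s ∈ Module.annihilator S (EE π)) :
    ∃ i : M →ₗ[S] (Fin k → S), ∀ x, π (i x) = s • x := by
  obtain ⟨n, p, σ, -, -, hpσ⟩ := Module.Finite.exists_comp_eq_id_of_projective S (LinearMap.ker π)
  have h1 : ∀ f : LinearMap.ker π →ₗ[S] S, ∃ h, res π h = s • f := by
    intro f
    have e1 := Module.mem_annihilator.1 hs ((LinearMap.range (res π)).mkQ f)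
    rw [← map_smul, Submodule.mkQ_apply, Submodule.Quotient.mk_eq_zero] at e1
    exact e1
  choose h hh using fun l : Fin n => h1 ((LinearMap.proj l) ∘ₗ σ)
  let H : (Fin k → S) →ₗ[S] LinearMap.ker π := p ∘ₗ LinearMap.pi h
  have hH : ∀ x : LinearMap.ker π, H (x : Fin k → S) = s • x := by
    intro x
    have e2 : LinearMap.pi h (x : Fin k → S) = s • σ x := by
      funext l
      exact LinearMap.congr_fun (hh l) x
    change p (LinearMap.pi h (x : Fin k → S)) = _
    rw [e2, map_smul]
    congr 1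
    exact LinearMap.congr_fun hpσ x
  obtain ⟨i, hi⟩ := exists_factor π hπ (s • LinearMap.id - (LinearMap.ker π).subtype ∘ₗ H) (by
    intro x hx
    have e3 := hH ⟨x, hx⟩
    change s • x - ((H x : LinearMap.ker π) : Fin k → S) = 0
    have e4 : H x = s • (⟨x, hx⟩ : LinearMap.ker π) := e3
    rw [e4]
    exact sub_self _)
  refine ⟨i, fun m => ?_⟩
  obtain ⟨x, rfl⟩ := hπ m
  rw [hi, LinearMap.sub_apply, map_sub]
  have e5 : π ((LinearMap.ker π).subtype (H x)) = 0 := (H x).2
  rw [LinearMap.comp_apply, e5, sub_zero, LinearMap.smul_apply, map_smul]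
  rfl

end

end Pool.Agent.V5helper89.NCCR
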