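import Mathlib

set_option autoImplicit false

namespace Pool.Agent.V5helper89.NCCR

variable {R : Type} [CommRing R]

/-- a linear form with values in an ideal, on a finite projective module -/
lemma form_mem {N : Type} [AddCommGroup N] [Module R N] [Module.Finite R N]
    [Module.Projective R N] (m : Ideal R) (g : N →ₗ[R] R) (hg : ∀ x, g x ∈ m) :
    g ∈ m • (⊤ : Submodule R (N →ₗ[R] R)) := by
  obtain ⟨n, p, s, -, -, hps⟩ := Module.Finite.exists_comp_eq_id_of_projective R N
  have e : g = ∑ l : Fin n, g (p (Pi.single l 1)) • ((LinearMap.proj l) ∘ₗ s) := by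
    ext x
    have h1 : x = p (s x) := (LinearMap.congr_fun hps x).symm
    have h2 : s x = ∑ l, (s x l) • (Pi.single l 1 : Fin n → R) := by
      simpa using (pi_eq_sum_univ' (s x))
    conv_lhs => rw [h1, h2]
    simp only [map_sum, map_smul, LinearMap.sum_apply, LinearMap.smul_apply, LinearMap.comp_apply,
      LinearMap.proj_apply, smul_eq_mul]
    exact Finset.sum_congr rfl fun l _ => mul_comm _ _
  rw [e]
  exact Submodule.sum_mem _ fun l _ => Submodule.smul_mem_smul (hg _) Submodule.mem_top

/-- factorisation of a map through a surjection -/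
lemma exists_factor {F M X : Type} [AddCommGroup F] [Module R F] [AddCommGroup M] [Module R M]
    [AddCommGroup X] [Module R X] (π : F →ₗ[R] M) (hπ : Function.Surjective π)
    (u : F →ₗ[R] X) (hu : ∀ x, π x = 0 → u x = 0) : ∃ v : M →ₗ[R] X, ∀ x, v (π x) = u x := by
  let e := π.quotKerEquivOfSurjective hπ
  refine ⟨((LinearMap.ker π).liftQ u (fun x hx => hu x hx)) ∘ₗ e.symm.toLinearMap, fun x => ?_⟩
  have h1 : e.symm (π x) = (LinearMap.ker π).mkQ x := by
    rw [LinearEquiv.symm_apply_eq]
    exact (LinearMap.quotKerEquivOfSurjective_apply_mk π hπ x).symm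
  rw [LinearMap.comp_apply, LinearEquiv.coe_coe, h1]
  rfl

/-- A finite module `M` over a noetherian domain, without torsion and with `Ext¹(M, M) = 0`, whose
first syzygy is projective, is projective. -/
theorem projective_of_ext [IsDomain R] [IsNoetherianRing R] {M : Type} [AddCommGroup M]
    [Module R M] [Module.Finite R M] [Nontrivial M]
    (htf : ∀ (r : R) (x : M), r • x = 0 → r = 0 ∨ x = 0) {k : ℕ}
    (π : (Fin k → R) →ₗ[R] M) (hπ : Function.Surjective π)
    (hN : Module.Projective R (LinearMap.ker π))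
    (hext : ∀ φ : LinearMap.ker π →ₗ[R] M, ∃ ψ : (Fin k → R) →ₗ[R] M,
      ψ ∘ₗ (LinearMap.ker π).subtype = φ) : Module.Projective R M := by
  classical
  set N := LinearMap.ker π with hNdef
  have hNf : Module.Finite R N := inferInstance
  let res : ((Fin k → R) →ₗ[R] R) →ₗ[R] (N →ₗ[R] R) := LinearMap.lcomp R R N.subtype
  have hres : ∀ h, res h = h ∘ₗ N.subtype := fun h => rfl
  obtain ⟨n, p, s, -, -, hps⟩ := Module.Finite.exists_comp_eq_id_of_projective R N
  have hdf : Module.Finite R (N →ₗ[R] R) := by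
    let t : (N →ₗ[R] R) →ₗ[R] ((Fin n → R) →ₗ[R] R) := LinearMap.lcomp R R p
    have ht : Function.Injective t := by
      intro a b hab
      ext x
      have h1 : a (p (s x)) = b (p (s x)) := LinearMap.congr_fun hab (s x)
      have h2 : p (s x) = x := LinearMap.congr_fun hps x
      rwa [h2] at h1
    exact Module.Finite.of_injective t ht
  have hU : LinearMap.range res = ⊤ := by
    by_contra hne
    set U := LinearMap.range res with hUdef
    have hT : Nontrivial ((N →ₗ[R] R) ⧸ U) := Submodule.Quotient.nontrivial_iff.2 hne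
    have hI : Module.annihilator R ((N →ₗ[R] R) ⧸ U) ≠ ⊤ := by
      intro h
      rw [Module.annihilator_eq_top_iff] at h
      exact not_subsingleton _ h
    obtain ⟨m, hm, hIm⟩ := Ideal.exists_le_maximal _ hI
    have h1 : m • (⊤ : Submodule R ((N →ₗ[R] R) ⧸ U)) ≠ ⊤ := by
      intro h
      obtain ⟨r, hr, hr2⟩ := Submodule.exists_sub_one_mem_and_smul_eq_zero_of_fg_of_le_smul m
        (⊤ : Submodule R ((N →ₗ[R] R) ⧸ U)) Module.Finite.fg_top h.ge
      have h3 : r ∈ m := hIm (Module.mem_annihilator.2 fun x => hr2 x trivial)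
      apply hm.ne_top
      rw [Ideal.eq_top_iff_one]
      simpa using m.sub_mem h3 hr
    have h2 : m • (⊤ : Submodule R M) ≠ ⊤ := by
      intro h
      obtain ⟨r, hr, hr2⟩ := Submodule.exists_sub_one_mem_and_smul_eq_zero_of_fg_of_le_smul m
        (⊤ : Submodule R M) Module.Finite.fg_top h.ge
      obtain ⟨x, hx⟩ := exists_ne (0 : M)
      have h3 : r = 0 := (htf r x (hr2 x trivial)).resolve_right hx
      apply hm.ne_top
      rw [Ideal.eq_top_iff_one]
      rw [h3, zero_sub] at hr
      simpa using m.neg_mem hr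
    obtain ⟨y, hy⟩ : ∃ y, y ∉ m • (⊤ : Submodule R ((N →ₗ[R] R) ⧸ U)) := by
      by_contra hcon
      push Not at hcon
      exact h1 (eq_top_iff.2 fun x _ => hcon x)
    obtain ⟨f, rfl⟩ := Submodule.mkQ_surjective U y
    obtain ⟨x0, hx0⟩ : ∃ x, x ∉ m • (⊤ : Submodule R M) := by
      by_contra hcon
      push Not at hcon
      exact h2 (eq_top_iff.2 fun x _ => hcon x)
    obtain ⟨ψ, hψ⟩ := hext (f.smulRight x0)
    -- a linear form on `M / m M`
    let _ : Field (R ⧸ m) := Ideal.Quotient.field m
    let Mb := M ⧸ (m • (⊤ : Submodule R M))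
    obtain ⟨lam, hlam⟩ : ∃ lam : Mb →ₗ[R ⧸ m] (R ⧸ m),
        lam ((m • (⊤ : Submodule R M)).mkQ x0) = 1 := by
      have h3 : (m • (⊤ : Submodule R M)).mkQ x0 ≠ 0 := by
        rw [Submodule.mkQ_apply, Ne, Submodule.Quotient.mk_eq_zero]
        exact hx0
      obtain ⟨l, hl⟩ : ∃ l : Module.Dual (R ⧸ m) Mb, l ((m • (⊤ : Submodule R M)).mkQ x0) ≠ 0 := by
        by_contra hcon
        push Not at hcon
        exact h3 ((Module.forall_dual_apply_eq_zero_iff (R ⧸ m) _).1 hcon)
      refine ⟨(l ((m • (⊤ : Submodule R M)).mkQ x0))⁻¹ • l, ?_⟩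
      rw [LinearMap.smul_apply, smul_eq_mul, inv_mul_cancel₀ hl]
    choose c hc using fun i : Fin k => Ideal.Quotient.mk_surjective
      (lam ((m • (⊤ : Submodule R M)).mkQ (ψ (Pi.single i 1))))
    let h : (Fin k → R) →ₗ[R] R := ∑ i, c i • LinearMap.proj i
    have hval : ∀ x : N, (f - res h) x ∈ m := by
      intro x
      rw [← Ideal.Quotient.eq_zero_iff_mem, LinearMap.sub_apply, map_sub, sub_eq_zero]
      have h4 : ψ x = f x • x0 := LinearMap.congr_fun hψ x
      have h5 : (x : Fin k → R) = ∑ l, ((x : Fin k → R) l) • (Pi.single l 1 : Fin k → R) := by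
        simpa using (pi_eq_sum_univ' (x : Fin k → R))
      have hsm : ∀ (r : R) (v : M), lam ((m • (⊤ : Submodule R M)).mkQ (r • v)) =
          Ideal.Quotient.mk m r * lam ((m • (⊤ : Submodule R M)).mkQ v) := by
        intro r v
        have : (m • (⊤ : Submodule R M)).mkQ (r • v) =
          (Ideal.Quotient.mk m r) • (m • (⊤ : Submodule R M)).mkQ v := rfl
        rw [this, map_smul, smul_eq_mul]
      have h6 : lam ((m • (⊤ : Submodule R M)).mkQ (ψ x)) = Ideal.Quotient.mk m (f x) := by
        rw [h4, hsm, hlam, mul_one]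
      have h7 : lam ((m • (⊤ : Submodule R M)).mkQ (ψ x)) =
          ∑ l, Ideal.Quotient.mk m ((x : Fin k → R) l) * Ideal.Quotient.mk m (c l) := by
        conv_lhs => rw [h5]
        rw [map_sum, map_sum, map_sum]
        refine Finset.sum_congr rfl fun l _ => ?_
        rw [map_smul, hsm, hc]
      rw [← h6, h7]
      rw [hres, LinearMap.comp_apply]
      simp only [h, LinearMap.sum_apply, LinearMap.smul_apply, LinearMap.proj_apply, smul_eq_mul,
        map_sum, map_mul]
      exact Finset.sum_congr rfl fun l _ => mul_comm _ _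
    have h8 := form_mem m (f - res h) hval
    apply hy
    have h9 : U.mkQ f = U.mkQ (f - res h) := by
      rw [map_sub]
      have : U.mkQ (res h) = 0 := by
        rw [Submodule.mkQ_apply, Submodule.Quotient.mk_eq_zero]
        exact ⟨h, rfl⟩
      rw [this, sub_zero]
    rw [h9]
    have h10 : (m • (⊤ : Submodule R (N →ₗ[R] R))).map U.mkQ ≤
        m • (⊤ : Submodule R ((N →ₗ[R] R) ⧸ U)) := by
      rw [Submodule.map_smul'']
      exact Submodule.smul_mono le_rfl le_top
    exact h10 ⟨_, h8, rfl⟩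
  have hs : ∀ l : Fin n, ∃ h : (Fin k → R) →ₗ[R] R, res h = (LinearMap.proj l) ∘ₗ s := by
    intro l
    have : (LinearMap.proj l) ∘ₗ s ∈ LinearMap.range res := by rw [hU]; trivial
    exact this
  choose h hh using hs
  let ρ : (Fin k → R) →ₗ[R] N := p ∘ₗ LinearMap.pi h
  have hρ : ∀ x : N, ρ (x : Fin k → R) = x := by
    intro x
    have h1 : LinearMap.pi h (x : Fin k → R) = s x := by
      funext l
      exact LinearMap.congr_fun (hh l) x
    change p (LinearMap.pi h (x : Fin k → R)) = x
    rw [h1]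
    exact LinearMap.congr_fun hps x
  obtain ⟨v, hv⟩ := exists_factor π hπ (LinearMap.id - N.subtype ∘ₗ ρ) (by
    intro x hx
    have := hρ ⟨x, hx⟩
    rw [LinearMap.sub_apply, LinearMap.comp_apply]
    change x - ((ρ x : N) : Fin k → R) = 0
    rw [this, sub_self])
  refine Module.Projective.of_split v π ?_
  ext x
  obtain ⟨y, rfl⟩ := hπ x
  rw [LinearMap.comp_apply, hv, LinearMap.sub_apply, map_sub, LinearMap.comp_apply]
  have : π (N.subtype (ρ y)) = 0 := (ρ y).2
  rw [this, sub_zero]
  rfl

end Pool.Agent.V5helper89.NCCR
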