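import Pool.Agent.TH215.TM.AsmMM
import Pool.Agent.TH215.TM.Gor

set_option autoImplicit false

open Pool.Agent.TH215.TM

namespace Pool.Agent.V5helper89.NCCR

/-- the coordinates of an element of `R` with respect to `1, w, w², w³` -/
noncomputable def cR (i : Fin 4) : RR →ₗ[S3] S3 := (bas g3).coord i

lemma cR_sum (x : RR) : x = ∑ i : Fin 4, cR i x • wR ^ (i : ℕ) := by
  conv_lhs => rw [← (bas g3).sum_repr x]
  refine Finset.sum_congr rfl fun i _ => ?_
  rw [bas_apply]
  rfl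

lemma cR_sum' (x : RR) : x = cR 0 x • 1 + cR 1 x • wR + cR 2 x • wR ^ 2 + cR 3 x • wR ^ 3 := by
  conv_lhs => rw [cR_sum x, Fin.sum_univ_four]
  simp

lemma cR3_w (i : Fin 4) (x : RR) : cR 3 (wR ^ (i : ℕ) * x) = cR i.rev x := by
  have h : (cR 3) ∘ₗ (LinearMap.mulLeft S3 (wR ^ (i : ℕ))) = cR i.rev := by
    apply (bas g3).ext
    intro j
    have h1 := coord_mul g3 i j
    rw [bas_apply g3 i, mul_comm] at h1
    exact h1
  exact LinearMap.congr_fun h x

lemma wR_four : wR ^ 4 = - algebraMap S3 RR g3 := by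
  have := wR_rel
  rw [← of_g3] at this
  exact eq_neg_of_add_eq_zero_left this

section lin

variable {M N : Type} [AddCommGroup M] [Module RR M] [Module S3 M] [IsScalarTower S3 RR M]
  [AddCommGroup N] [Module RR N] [Module S3 N] [IsScalarTower S3 RR N]

/-- an `S`-linear map which commutes with `w` is `R`-linear -/
noncomputable def linOfComm (f : M →ₗ[S3] N) (hw : ∀ v, f (wR • v) = wR • f v) : M →ₗ[RR] N where
  toFun := f
  map_add' := f.map_add
  map_smul' := by
    intro r v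
    simp only [RingHom.id_apply]
    have hp : ∀ (k : ℕ) v, f (wR ^ k • v) = wR ^ k • f v := by
      intro k
      induction k with
      | zero => intro v; simp
      | succ k ih => intro v; rw [pow_succ' wR k, mul_smul, hw, ih, mul_smul]
    rw [cR_sum r, Finset.sum_smul, Finset.sum_smul, map_sum]
    refine Finset.sum_congr rfl fun i _ => ?_
    rw [smul_assoc, smul_assoc, map_smul, hp]

@[simp] lemma linOfComm_apply (f : M →ₗ[S3] N) (hw : ∀ v, f (wR • v) = wR • f v) (v : M) :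
    linOfComm f hw v = f v := rfl

/-- multiplication by a power of `w`, as an `S`-linear map -/
noncomputable def mw (M : Type) [AddCommGroup M] [Module RR M] [Module S3 M]
    [IsScalarTower S3 RR M] (k : ℕ) : M →ₗ[S3] M where
  toFun v := wR ^ k • v
  map_add' _ _ := smul_add _ _ _
  map_smul' _ _ := smul_comm _ _ _

@[simp] lemma mw_apply (k : ℕ) (v : M) : mw M k v = wR ^ k • v := rfl

/-- The Frobenius duality: the `R`-linear form attached to an `S`-linear form. -/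
noncomputable def frob0 (h : M →ₗ[S3] S3) : M →ₗ[S3] RR :=
  ∑ a ∈ Finset.range 4, (LinearMap.toSpanSingleton S3 RR (wR ^ a)) ∘ₗ h ∘ₗ (mw M (3 - a))

lemma frob0_apply (h : M →ₗ[S3] S3) (v : M) :
    frob0 h v = ∑ a ∈ Finset.range 4, h (wR ^ (3 - a) • v) • wR ^ a := by
  simp [frob0]

lemma frob0_w (h : M →ₗ[S3] S3) (v : M) : frob0 h (wR • v) = wR • frob0 h v := by
  have e4 : h (wR ^ 4 • v) = - g3 * h v := by
    rw [wR_four, neg_smul, algebraMap_smul, map_neg, map_smul, smul_eq_mul, neg_mul]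
  simp only [frob0_apply, Finset.sum_range_succ, Finset.sum_range_zero, smul_smul, zero_add,
    smul_add]
  have e1 : ∀ k : ℕ, wR ^ k * wR = wR ^ (k + 1) := fun k => (pow_succ _ _).symm
  have e2 : ∀ (s : S3) (k : ℕ), wR • (s • wR ^ k) = s • wR ^ (k + 1) := by
    intro s k
    rw [smul_comm, smul_eq_mul, ← pow_succ']
  simp only [e1, e2]
  simp only [show 3 - 0 + 1 = 4 from rfl, show 3 - 1 + 1 = 3 from rfl, show 3 - 2 + 1 = 2 from rfl,
    show 3 - 3 + 1 = 1 from rfl, show 3 - 0 = 3 from rfl, show 3 - 1 = 2 from rfl,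
    show 3 - 2 = 1 from rfl, show 3 - 3 = 0 from rfl, show 0 + 1 = 1 from rfl,
    show 1 + 1 = 2 from rfl, show 2 + 1 = 3 from rfl, show 3 + 1 = 4 from rfl]
  rw [e4, wR_four, pow_zero, one_smul]
  have e3 : (-g3 * h v) • (1 : RR) = h v • (-algebraMap S3 RR g3) := by
    rw [Algebra.smul_def, Algebra.smul_def, map_mul, map_neg, mul_one, mul_comm]
  rw [e3]
  abel

/-- The Frobenius duality: the `R`-linear form attached to an `S`-linear form. -/
noncomputable def frob (h : M →ₗ[S3] S3) : M →ₗ[RR] RR := linOfComm (frob0 h) (frob0_w h)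

lemma frob_apply (h : M →ₗ[S3] S3) (v : M) :
    frob h v = ∑ a ∈ Finset.range 4, h (wR ^ (3 - a) • v) • wR ^ a := frob0_apply h v

lemma cR_pow (k : ℕ) (hk : k < 4) : cR 3 (wR ^ k) = if k = 3 then 1 else 0 := coord_pow g3 k hk

lemma cR3_frob (h : M →ₗ[S3] S3) (v : M) : cR 3 (frob h v) = h v := by
  rw [frob_apply, map_sum]
  simp only [Finset.sum_range_succ, Finset.sum_range_zero, map_smul, smul_eq_mul, zero_add]
  rw [cR_pow 0 (by norm_num), cR_pow 1 (by norm_num), cR_pow 2 (by norm_num),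
    cR_pow 3 (by norm_num)]
  simp

/-- an `R`-linear form is determined by the coefficient of `w³` -/
lemma form_ext (f : M →ₗ[RR] RR) (h : ∀ v, cR 3 (f v) = 0) : f = 0 := by
  ext v
  have hk : ∀ i : Fin 4, cR i (f v) = 0 := by
    intro i
    have h1 := cR3_w i.rev (f v)
    rw [Fin.rev_rev] at h1
    rw [← h1, ← smul_eq_mul, ← map_smul]
    exact h _
  rw [cR_sum (f v)]
  simp [hk]

end lin

/-- Solution of `w t - t w = η`. -/
lemma exists_t {N : Type} [AddCommGroup N] [Module RR N] [Module S3 N] [IsScalarTower S3 RR N]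
    (η : N →ₗ[S3] RR)
    (hη : ∀ n, ∑ a ∈ Finset.range 4, wR ^ a • η (wR ^ (3 - a) • n) = 0) :
    ∃ t : N →ₗ[S3] RR, ∀ n, wR • t n - t (wR • n) = η n := by
  let e : Fin 4 → (N →ₗ[S3] S3) := fun i => (cR i) ∘ₗ η
  let t2 : N →ₗ[S3] S3 := e 3
  let t1 : N →ₗ[S3] S3 := e 2 + e 3 ∘ₗ mw N 1
  let t0 : N →ₗ[S3] S3 := e 1 + e 2 ∘ₗ mw N 1 + e 3 ∘ₗ mw N 2
  let t : N →ₗ[S3] RR := (LinearMap.toSpanSingleton S3 RR 1) ∘ₗ t0 +
    (LinearMap.toSpanSingleton S3 RR wR) ∘ₗ t1 + (LinearMap.toSpanSingleton S3 RR (wR ^ 2)) ∘ₗ t2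
  refine ⟨t, fun n => ?_⟩
  have h0 : cR 0 (η n) + cR 1 (η (wR • n)) + cR 2 (η (wR ^ 2 • n)) + cR 3 (η (wR ^ 3 • n)) = 0 := by
    have h1 := congrArg (cR 3) (hη n)
    rw [map_sum, map_zero] at h1
    simp only [Finset.sum_range_succ, Finset.sum_range_zero, zero_add, smul_eq_mul] at h1
    have c0 := cR3_w 0 (η (wR ^ (3 - 0) • n))
    have c1 := cR3_w 1 (η (wR ^ (3 - 1) • n))
    have c2 := cR3_w 2 (η (wR ^ (3 - 2) • n))
    have c3 := cR3_w 3 (η (wR ^ (3 - 3) • n))
    simp only [Fin.coe_ofNat_eq_mod] at c0 c1 c2 c3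
    norm_num at c0 c1 c2 c3 h1
    rw [c1, c2, c3] at h1
    rw [show (Fin.rev 1 : Fin 4) = 2 from rfl, show (Fin.rev 2 : Fin 4) = 1 from rfl,
      show (Fin.rev 3 : Fin 4) = 0 from rfl] at h1
    linear_combination h1
  have ht : ∀ m, t m = (cR 1 (η m) + cR 2 (η (wR • m)) + cR 3 (η (wR ^ 2 • m))) • (1 : RR) +
      (cR 2 (η m) + cR 3 (η (wR • m))) • wR + (cR 3 (η m)) • wR ^ 2 := by
    intro m
    simp [t, t0, t1, t2, e]
  rw [ht, ht]
  conv_rhs => rw [cR_sum' (η n)]
  have p1 : wR • wR • n = wR ^ 2 • n := by rw [smul_smul, pow_two]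
  have p2 : wR ^ 2 • wR • n = wR ^ 3 • n := by rw [smul_smul, pow_succ wR 2]
  rw [p1, p2]
  have h2 : cR 0 (η n) = -(cR 1 (η (wR • n)) + cR 2 (η (wR ^ 2 • n)) + cR 3 (η (wR ^ 3 • n))) := by
    linear_combination h0
  rw [h2]
  simp only [Algebra.smul_def, Algebra.algebraMap_self, RingHom.id_apply, map_add, map_neg]
  ring

/-- Solution of `w t - t w = η`, for maps to a free module. -/
lemma exists_t' {N : Type} [AddCommGroup N] [Module RR N] [Module S3 N] [IsScalarTower S3 RR N]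
    {k : ℕ} (η : N →ₗ[S3] (Fin k → RR))
    (hη : ∀ n, ∑ a ∈ Finset.range 4, wR ^ a • η (wR ^ (3 - a) • n) = 0) :
    ∃ t : N →ₗ[S3] (Fin k → RR), ∀ n, wR • t n - t (wR • n) = η n := by
  have h : ∀ l : Fin k, ∃ t : N →ₗ[S3] RR, ∀ n, wR • t n - t (wR • n) = η n l := by
    intro l
    refine exists_t ((LinearMap.proj l) ∘ₗ η) fun n => ?_
    have := congrFun (hη n) l
    simpa using this
  choose t ht using h
  refine ⟨LinearMap.pi t, fun n => ?_⟩
  funext l
  exact ht l n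

end Pool.Agent.V5helper89.NCCR
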