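import Pool.Agent.V5helper89.NCCR.ExtProj

set_option autoImplicit false

namespace Pool.Agent.V5helper89.NCCR

section

variable {S R : Type} [CommRing S] [CommRing R] [Algebra S R]
  {M : Type} [AddCommGroup M] [Module R M] [Module S M] [IsScalarTower S R M]
  {k : ℕ} (π : (Fin k → R) →ₗ[R] M)

/-- If `Ext¹(M, M) = 0` then the first syzygy of `M` is rigid. -/
theorem rigid_gen (w : R) (hπ : Function.Surjective π)
    (hext : ∀ φ : LinearMap.ker π →ₗ[R] M, ∃ ψ : (Fin k → R) →ₗ[R] M,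
      ψ ∘ₗ (LinearMap.ker π).subtype = φ)
    (hlin : ∀ f : LinearMap.ker π →ₗ[S] M, (∀ v, f (w • v) = w • f v) →
      ∃ g : LinearMap.ker π →ₗ[R] M, ∀ v, g v = f v)
    (hT : ∀ η : LinearMap.ker π →ₗ[S] (Fin k → R),
      (∀ n, ∑ a ∈ Finset.range 4, w ^ a • η (w ^ (3 - a) • n) = 0) →
      ∃ t : LinearMap.ker π →ₗ[S] (Fin k → R), ∀ n, w • t n - t (w • n) = η n)
    (δ : LinearMap.ker π →ₗ[S] LinearMap.ker π)
    (hδ : ∀ n, ∑ a ∈ Finset.range 4, w ^ a • δ (w ^ (3 - a) • n) = 0) :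
    ∃ b : LinearMap.ker π →ₗ[S] LinearMap.ker π, ∀ n, δ n = w • b n - b (w • n) := by
  let N := LinearMap.ker π
  let η : N →ₗ[S] (Fin k → R) := (N.subtype.restrictScalars S) ∘ₗ δ
  have hηa : ∀ n : N, η n = ((δ n : N) : Fin k → R) := fun n => rfl
  have hη : ∀ n : N, ∑ a ∈ Finset.range 4, w ^ a • η (w ^ (3 - a) • n) = 0 := by
    intro n
    have h3 := congrArg N.subtype (hδ n)
    rw [map_sum, map_zero] at h3
    rw [← h3]
    exact Finset.sum_congr rfl fun i _ => rfl
  obtain ⟨t, ht⟩ := hT η hη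
  have hπη : ∀ n : N, π (η n) = 0 := fun n => (δ n).2
  obtain ⟨φ', hφ'⟩ := hlin ((π.restrictScalars S) ∘ₗ t) (by
    intro n
    have h1 : t (w • n) = w • t n - η n := by rw [← ht n]; abel
    change π (t (w • n)) = w • π (t n)
    rw [h1, map_sub, hπη, sub_zero, map_smul])
  obtain ⟨ψ, hψ⟩ := hext φ'
  obtain ⟨Ψ, hΨ⟩ := Module.projective_lifting_property π ψ hπ
  have hb : ∀ n : N, t n - Ψ (n : Fin k → R) ∈ N := by
    intro n
    rw [LinearMap.mem_ker, map_sub, sub_eq_zero]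
    have h1 : π (Ψ (n : Fin k → R)) = ψ n := LinearMap.congr_fun hΨ _
    have h2 : ψ n = φ' n := LinearMap.congr_fun hψ n
    rw [h1, h2, hφ']
    rfl
  let b : N →ₗ[S] N :=
    { toFun := fun n => ⟨t n - Ψ (n : Fin k → R), hb n⟩
      map_add' := by
        intro x y
        apply Subtype.ext
        change t (x + y) - Ψ ((x : Fin k → R) + y) = (t x - Ψ x) + (t y - Ψ y)
        rw [map_add, map_add]
        abel
      map_smul' := by
        intro s x
        apply Subtype.ext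
        change t (s • x) - Ψ (s • (x : Fin k → R)) = s • (t x - Ψ x)
        rw [map_smul, LinearMap.map_smul_of_tower, smul_sub] }
  refine ⟨b, fun n => ?_⟩
  apply Subtype.ext
  change ((δ n : N) : Fin k → R) = w • (t n - Ψ (n : Fin k → R)) -
    (t (w • n) - Ψ (w • (n : Fin k → R)))
  rw [← hηa, ← ht n, LinearMap.map_smul Ψ w, smul_sub]
  abel

/-- An element of the stable annihilator of `M`, seen on the first syzygy of `M`. -/
lemma exists_rho (hπ : Function.Surjective π) (s : S) {P : Type} [AddCommGroup P] [Module R P]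
    [Module.Projective R P] (i : M →ₗ[R] P) (p : P →ₗ[R] M) (hip : ∀ x, p (i x) = s • x) :
    ∃ ρ : (Fin k → R) →ₗ[R] LinearMap.ker π, ∀ x : LinearMap.ker π,
      ρ (x : Fin k → R) = s • x := by
  obtain ⟨p', hp'⟩ := Module.projective_lifting_property π p hπ
  let τ : (Fin k → R) →ₗ[R] (Fin k → R) :=
    (algebraMap S R s) • LinearMap.id - p' ∘ₗ i ∘ₗ π
  have hτ : ∀ x, τ x ∈ LinearMap.ker π := by
    intro x
    have h1 : π (p' (i (π x))) = p (i (π x)) := LinearMap.congr_fun hp' _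
    change π ((algebraMap S R s) • x - p' (i (π x))) = 0
    rw [map_sub, map_smul, h1, hip, algebraMap_smul, sub_self]
  refine ⟨τ.codRestrict _ hτ, fun x => ?_⟩
  apply Subtype.ext
  change (algebraMap S R s) • (x : Fin k → R) - p' (i (π x)) = s • (x : Fin k → R)
  have : π (x : Fin k → R) = 0 := x.2
  rw [this, map_zero, map_zero, sub_zero, algebraMap_smul]

/-- `Ext¹(M, M) = 0`, if it is annihilated by a regular sequence of length three on `End(M)`. -/
theorem ext_of_regular (hπ : Function.Surjective π) (a b c : S)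
    (ha : ∃ ρ : (Fin k → R) →ₗ[R] LinearMap.ker π, ∀ x : LinearMap.ker π,
      ρ (x : Fin k → R) = a • x)
    (hb : ∃ ρ : (Fin k → R) →ₗ[R] LinearMap.ker π, ∀ x : LinearMap.ker π,
      ρ (x : Fin k → R) = b • x)
    (hc : ∃ ρ : (Fin k → R) →ₗ[R] LinearMap.ker π, ∀ x : LinearMap.ker π,
      ρ (x : Fin k → R) = c • x)
    (hM1 : ∀ x : M, a • x = 0 → x = 0) (hM2 : ∀ x y : M, b • x = a • y → ∃ z, x = a • z)
    (hE : ∀ e f g : Module.End R M, c • e = a • f + b • g →
      ∃ u v : Module.End R M, e = b • u - a • v)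
    (φ : LinearMap.ker π →ₗ[R] M) :
    ∃ ψ : (Fin k → R) →ₗ[R] M, ψ ∘ₗ (LinearMap.ker π).subtype = φ := by
  obtain ⟨ρa, hρa⟩ := ha
  obtain ⟨ρb, hρb⟩ := hb
  obtain ⟨ρc, hρc⟩ := hc
  let ψa := φ ∘ₗ ρa
  let ψb := φ ∘ₗ ρb
  let ψc := φ ∘ₗ ρc
  have hsm : ∀ (s : S) (x : LinearMap.ker π), φ (s • x) = s • φ x :=
    fun s x => LinearMap.map_smul_of_tower φ s x
  have ka : ∀ x : LinearMap.ker π, ψa x = a • φ x := fun x => by
    change φ (ρa x) = _
    rw [hρa, hsm]
  have kb : ∀ x : LinearMap.ker π, ψb x = b • φ x := fun x => by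
    change φ (ρb x) = _
    rw [hρb, hsm]
  have kc : ∀ x : LinearMap.ker π, ψc x = c • φ x := fun x => by
    change φ (ρc x) = _
    rw [hρc, hsm]
  have gen : ∀ (s t : S) (α β : (Fin k → R) →ₗ[R] M), (∀ x : LinearMap.ker π, α x = s • φ x) →
      (∀ x : LinearMap.ker π, β x = t • φ x) →
      ∃ e : Module.End R M, ∀ y, e (π y) = t • α y - s • β y := by
    intro s t α β hα hβ
    exact exists_factor π hπ (t • α - s • β) (by
      intro x hx
      have h1' : α x = s • φ ⟨x, hx⟩ := hα ⟨x, hx⟩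
      have h2' : β x = t • φ ⟨x, hx⟩ := hβ ⟨x, hx⟩
      change t • α x - s • β x = 0
      rw [h1', h2', smul_comm, sub_self])
  obtain ⟨eab, hab⟩ := gen a b ψa ψb ka kb
  obtain ⟨ebc, hbc⟩ := gen b c ψb ψc kb kc
  obtain ⟨eca, hca⟩ := gen c a ψc ψa kc ka
  have hrel : c • eab = a • (-ebc) + b • (-eca) := by
    refine LinearMap.ext fun x => ?_
    obtain ⟨y, rfl⟩ := hπ x
    simp only [LinearMap.smul_apply, LinearMap.add_apply, LinearMap.neg_apply, hab, hbc, hca]
    simp only [smul_sub, smul_neg]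
    rw [smul_comm c b, smul_comm c a, smul_comm b a]
    abel
  obtain ⟨u, v, huv⟩ := hE eab _ _ hrel
  have key : ∀ y, ∃ z : M, ψa y - u (π y) = a • z := by
    intro y
    refine hM2 _ (ψb y - v (π y)) ?_
    have h1 := hab y
    rw [huv] at h1
    simp only [LinearMap.sub_apply, LinearMap.smul_apply] at h1
    rw [smul_sub, smul_sub]
    have h2 : b • ψa y - a • ψb y = b • u (π y) - a • v (π y) := h1.symm
    rw [sub_eq_sub_iff_add_eq_add]
    rw [sub_eq_sub_iff_add_eq_add] at h2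
    rw [h2]
    abel
  choose z hz using fun i : Fin k => key (Pi.single i 1)
  let ψ : (Fin k → R) →ₗ[R] M := (Pi.basisFun R (Fin k)).constr R z
  have hψ : ∀ y, a • ψ y = ψa y - u (π y) := by
    have h1 : a • ψ = ψa - u ∘ₗ π := by
      apply (Pi.basisFun R (Fin k)).ext
      intro i
      rw [LinearMap.smul_apply, Module.Basis.constr_basis, LinearMap.sub_apply,
        LinearMap.comp_apply, Pi.basisFun_apply, ← hz]
      rfl
    intro y
    exact LinearMap.congr_fun h1 y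
  refine ⟨ψ, ?_⟩
  refine LinearMap.ext fun x => ?_
  have h1 := hψ (x : Fin k → R)
  have h2 : π (x : Fin k → R) = 0 := x.2
  rw [h2, map_zero, sub_zero, ka, ← sub_eq_zero, ← smul_sub] at h1
  exact sub_eq_zero.1 (hM1 _ h1)

end

end Pool.Agent.V5helper89.NCCR
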