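import Pool.Agent.V5helper89.NCCR.Frob
import Pool.Agent.V5helper89.NCCR.RigidGen

set_option autoImplicit false

open Pool.Agent.TH215.TM

namespace Pool.Agent.V5helper89.NCCR

open Pool.Agent.TH159.TM Pool.Agent.TH350.J289 Pool.Agent.TH350.J290 Pool.Agent.TH350.J291

/-- If `Ext¹(M, M) = 0` then the first syzygy of `M` is rigid. -/
theorem rigid_RR {M : Type} [AddCommGroup M] [Module RR M] [Module S3 M] [IsScalarTower S3 RR M]
    {k : ℕ} (π : (Fin k → RR) →ₗ[RR] M) (hπ : Function.Surjective π)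
    (hext : ∀ φ : LinearMap.ker π →ₗ[RR] M, ∃ ψ : (Fin k → RR) →ₗ[RR] M,
      ψ ∘ₗ (LinearMap.ker π).subtype = φ)
    (δ : Module.End S3 (LinearMap.ker π)) (hδ : tr4 (phiN (LinearMap.ker π)) δ = 0) :
    ∃ b : Module.End S3 (LinearMap.ker π),
      δ = phiN (LinearMap.ker π) * b - b * phiN (LinearMap.ker π) := by
  have h1 : ∀ n : LinearMap.ker π, ∑ a ∈ Finset.range 4, wR ^ a • δ (wR ^ (3 - a) • n) = 0 := by
    intro n
    have h2 := LinearMap.congr_fun hδ n
    rw [tr4, LinearMap.sum_apply, LinearMap.zero_apply] at h2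
    rw [← h2]
    refine Finset.sum_congr rfl fun i _ => ?_
    rw [Module.End.mul_apply, Module.End.mul_apply, phiN_pow, phiN_pow]
  obtain ⟨b, hb⟩ := rigid_gen (S := S3) (R := RR) π wR hπ hext
    (fun f hf => ⟨linOfComm f hf, fun v => rfl⟩) (fun η hη => exists_t' η hη) δ h1
  exact ⟨b, LinearMap.ext fun n => hb n⟩

/-- The first syzygy of `M` is projective if `Ext¹(M, M) = 0` and the syzygy is projective over
`S`. -/
theorem syzygy_projective {M : Type} [AddCommGroup M] [Module RR M] [Module S3 M]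
    [IsScalarTower S3 RR M] {k : ℕ} (π : (Fin k → RR) →ₗ[RR] M) (hπ : Function.Surjective π)
    (hext : ∀ φ : LinearMap.ker π →ₗ[RR] M, ∃ ψ : (Fin k → RR) →ₗ[RR] M,
      ψ ∘ₗ (LinearMap.ker π).subtype = φ)
    (hp : Module.Projective S3 (LinearMap.ker π)) : Module.Projective RR (LinearMap.ker π) := by
  have hfR : Module.Finite RR (LinearMap.ker π) := inferInstance
  have hf : Module.Finite S3 (LinearMap.ker π) := Module.Finite.trans RR (LinearMap.ker π)
  have hφ := phiN_pow_four (LinearMap.ker π)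
  have hr := rigid_RR π hπ hext
  obtain ⟨a, ha⟩ := chain (LinearMap.ker π) (phiN (LinearMap.ker π)) hφ hr
    (trace_X2 (LinearMap.ker π) (phiN (LinearMap.ker π)) hφ)
    (exists_tau (LinearMap.ker π) (phiN (LinearMap.ker π)) hφ hr)
  exact higman 4 (by norm_num) g3 (LinearMap.ker π) (phiN (LinearMap.ker π)) (fun v => rfl) a ha

end Pool.Agent.V5helper89.NCCR
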