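import Pool.Agent.V5helper89.NCCR.ExtProj

set_option autoImplicit false

open RingTheory.Sequence TensorProduct Pointwise

namespace Pool.Agent.V5helper89.NCCR

section

variable {S : Type} [CommRing S] {X : Type} [AddCommGroup X] [Module S X] {a b c : S}

lemma weaklyRegular_of_flat [Module.Flat S X] {rs : List S} (h : IsWeaklyRegular S rs) :
    IsWeaklyRegular X rs :=
  ((TensorProduct.rid S X).isWeaklyRegular_congr rs).1 (h.isWeaklyRegular_lTensor (M₂ := X))

lemma mem_pointwise (r : S) (x : X) :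
    (Submodule.Quotient.mk x : QuotSMulTop r X) = 0 ↔ ∃ y, x = r • y := by
  rw [Submodule.Quotient.mk_eq_zero, Submodule.mem_smul_pointwise_iff_exists]
  constructor
  · rintro ⟨y, -, hy⟩
    exact ⟨y, hy.symm⟩
  · rintro ⟨y, hy⟩
    exact ⟨y, trivial, hy.symm⟩

lemma wr1 (h : IsWeaklyRegular X [a, b, c]) : ∀ x : X, a • x = 0 → x = 0 := by
  intro x hx
  rw [isWeaklyRegular_cons_iff] at h
  exact h.1 (by simpa using hx)

lemma wr2 (h : IsWeaklyRegular X [a, b, c]) : ∀ x y : X, b • x = a • y → ∃ z, x = a • z := by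
  intro x y hxy
  rw [isWeaklyRegular_cons_iff, isWeaklyRegular_cons_iff] at h
  rw [← mem_pointwise a x]
  apply h.2.1
  change (Submodule.Quotient.mk (b • x) : QuotSMulTop a X) = b • 0
  rw [smul_zero, mem_pointwise]
  exact ⟨y, hxy⟩

lemma wr3 (h : IsWeaklyRegular X [a, b, c]) :
    ∀ x y z : X, c • x = a • y + b • z → ∃ u v, x = b • u - a • v := by
  intro x y z hxyz
  rw [isWeaklyRegular_cons_iff, isWeaklyRegular_cons_iff, isWeaklyRegular_cons_iff] at h
  have h1 : (Submodule.Quotient.mk (Submodule.Quotient.mk x : QuotSMulTop a X) :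
      QuotSMulTop b (QuotSMulTop a X)) = 0 := by
    apply h.2.2.1
    change (Submodule.Quotient.mk (Submodule.Quotient.mk (c • x) : QuotSMulTop a X) :
      QuotSMulTop b (QuotSMulTop a X)) = c • 0
    rw [smul_zero, mem_pointwise]
    refine ⟨Submodule.Quotient.mk z, ?_⟩
    have h2 : (Submodule.Quotient.mk (c • x - b • z) : QuotSMulTop a X) = 0 := by
      rw [mem_pointwise]
      exact ⟨y, by rw [hxyz]; abel⟩
    rw [Submodule.Quotient.mk_sub, sub_eq_zero] at h2
    exact h2
  rw [mem_pointwise] at h1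
  obtain ⟨u, hu⟩ := h1
  obtain ⟨u, rfl⟩ := Submodule.Quotient.mk_surjective _ u
  have h2 : (Submodule.Quotient.mk (x - b • u) : QuotSMulTop a X) = 0 := by
    rw [Submodule.Quotient.mk_sub, sub_eq_zero]
    exact hu
  rw [mem_pointwise] at h2
  obtain ⟨v, hv⟩ := h2
  refine ⟨u, -v, ?_⟩
  rw [smul_neg, ← hv]
  abel

/-- Regularity on a second syzygy. -/
lemma wr_syzygy {Y Z : Type} [AddCommGroup Y] [Module S Y] [AddCommGroup Z] [Module S Z]
    (j : X →ₗ[S] Y) (A : Y →ₗ[S] Z) (hj : Function.Injective j) (hA : Function.Exact j A)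
    (hY : IsWeaklyRegular Y [a, b, c]) (hZ : IsWeaklyRegular Z [a, b, c]) :
    (∀ x : X, a • x = 0 → x = 0) ∧ ∀ x y : X, b • x = a • y → ∃ z, x = a • z := by
  constructor
  · intro x hx
    apply hj
    rw [map_zero]
    apply wr1 hY
    rw [← map_smul, hx, map_zero]
  · intro x y hxy
    obtain ⟨z, hz⟩ := wr2 hY (j x) (j y) (by rw [← map_smul, hxy, map_smul])
    have h1 : A z = 0 := by
      apply wr1 hZ
      rw [← map_smul, ← hz]
      exact hA.apply_apply_eq_zero x
    obtain ⟨z', rfl⟩ := (hA z).1 h1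
    refine ⟨z', hj ?_⟩
    rw [hz, map_smul]

end

end Pool.Agent.V5helper89.NCCR
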