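import Pool.Agent.V5helper89.NCCR.Rigid
import Pool.Agent.V5helper89.NCCR.ExtE
import Pool.Agent.V5helper89.NCCR.Seq
import Pool.Agent.V5helper89.NCCR.Copres

set_option autoImplicit false

open Pool.Agent.TH215.TM

namespace Pool.Agent.V5helper89.NCCR

section proj

lemma proj_down {A Λ : Type} [CommRing A] [CommRing Λ] [Algebra A Λ] [Module.Projective A Λ]
    (Y : Type) [AddCommGroup Y] [Module A Y] [Module Λ Y] [IsScalarTower A Λ Y]
    [hY : Module.Projective Λ Y] : Module.Projective A Y := by
  obtain ⟨s, hs⟩ := Module.projective_def'.1 hY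
  have := projective_finsupp (A := A) (Λ := Λ) Y
  refine Module.Projective.of_split (s.restrictScalars A)
    ((Finsupp.linearCombination Λ id : (Y →₀ Λ) →ₗ[Λ] Y).restrictScalars A) ?_
  ext y
  exact LinearMap.congr_fun hs y

end proj

section trace

variable {S R : Type} [CommRing S] [CommRing R] [Algebra S R]
  (M : Type) [AddCommGroup M] [Module R M] [Module S M] [IsScalarTower S R M]

/-- the endomorphisms which factor through free modules -/
def TT (S R : Type) [CommRing S] [CommRing R] [Algebra S R] (M : Type) [AddCommGroup M]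
    [Module R M] [Module S M] [IsScalarTower S R M] : Submodule S (Module.End R M) :=
  Submodule.span S {g | ∃ (f : M →ₗ[R] R) (m : M), g = f.smulRight m}

/-- the stable annihilator of `M` in `S` -/
def JJ (S R : Type) [CommRing S] [CommRing R] [Algebra S R] (M : Type) [AddCommGroup M]
    [Module R M] [Module S M] [IsScalarTower S R M] : Ideal S :=
  (TT S R M).comap (LinearMap.toSpanSingleton S (Module.End R M) 1)

lemma mem_JJ (s : S) : s ∈ JJ S R M ↔ s • (1 : Module.End R M) ∈ TT S R M := Iff.rfl

lemma TT_factor (g : Module.End R M) (hg : g ∈ TT S R M) :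
    ∃ (P : Type) (_ : AddCommGroup P) (_ : Module R P) (_ : Module.Projective R P)
      (i : M →ₗ[R] P) (p : P →ₗ[R] M), ∀ x, p (i x) = g x := by
  refine Submodule.span_induction (p := fun g _ => ∃ (P : Type) (_ : AddCommGroup P)
    (_ : Module R P) (_ : Module.Projective R P) (i : M →ₗ[R] P) (p : P →ₗ[R] M),
      ∀ x, p (i x) = g x) ?_ ?_ ?_ ?_ hg
  · rintro _ ⟨f, m, rfl⟩
    exact ⟨R, inferInstance, inferInstance, inferInstance, f, LinearMap.toSpanSingleton R M m,
      fun x => rfl⟩
  · exact ⟨R, inferInstance, inferInstance, inferInstance, 0, 0, fun x => rfl⟩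
  · rintro g g' - - ⟨P, _, _, _, i, p, h⟩ ⟨P', _, _, _, i', p', h'⟩
    exact ⟨P × P', inferInstance, inferInstance, inferInstance, i.prod i', p.coprod p',
      fun x => by simp [h, h']⟩
  · rintro s g - ⟨P, _, _, _, i, p, h⟩
    exact ⟨P, inferInstance, inferInstance, inferInstance, i, algebraMap S R s • p,
      fun x => by rw [LinearMap.smul_apply, h, algebraMap_smul]; rfl⟩

/-- the stable annihilator over `R` is contained in the annihilator of `Ext¹_S(M, S)` -/
lemma JJ_le_ann [IsNoetherianRing S] [Module.Projective S R] {k : ℕ} (π : (Fin k → S) →ₗ[S] M)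
    (hπ : Function.Surjective π) : JJ S R M ≤ Module.annihilator S (EE π) := by
  intro s hs
  obtain ⟨P, _, _, _, i, p, h⟩ := TT_factor M _ hs
  let _ : Module S P := Module.compHom P (algebraMap S R)
  have _ : IsScalarTower S R P := IsScalarTower.of_algebraMap_smul fun r x => rfl
  have hP : Module.Projective S P := proj_down (A := S) (Λ := R) P
  obtain ⟨ρ, hρ⟩ := exists_rho (S := S) (R := S) π hπ s (i.restrictScalars S)
    (p.restrictScalars S) (fun x => h x)
  rw [Module.mem_annihilator]
  intro y
  obtain ⟨f, rfl⟩ := (LinearMap.range (res π)).mkQ_surjective y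
  rw [← map_smul, Submodule.mkQ_apply, Submodule.Quotient.mk_eq_zero]
  refine ⟨f ∘ₗ ρ, ?_⟩
  refine LinearMap.ext fun x => ?_
  rw [res_apply, LinearMap.comp_apply, hρ, map_smul]
  rfl

end trace

section RRpart

variable {M : Type} [AddCommGroup M] [Module RR M] [Module S3 M] [IsScalarTower S3 RR M]

open Pool.Agent.TH350.Conn

/-- If `a` annihilates `Ext¹_S(M, S)` then `a² x_j²` is in the stable annihilator over `R`. -/
lemma sq_mem_JJ {k : ℕ} (π : (Fin k → S3) →ₗ[S3] M) (a : S3) (i : M →ₗ[S3] (Fin k → S3))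
    (hi : ∀ x, π (i x) = a • x) (j : Fin 3) :
    a ^ 2 * MvPolynomial.X j ^ 2 ∈ JJ S3 RR M := by
  obtain ⟨N0, hN0⟩ := exists_connection (k := ℂ) (MvPolynomial.pderiv j) (Fin k → S3)
  let nab : M →+ M := π.toAddMonoidHom.comp (N0.comp i.toAddMonoidHom)
  have hnab : ∀ (s : S3) (x : M), nab (s • x) =
      (fun s => a * MvPolynomial.pderiv j s) s • x + s • nab x := by
    intro s x
    change π (N0 (i (s • x))) = _
    rw [map_smul, hN0, map_add, map_smul, map_smul, hi, smul_smul, mul_comm]
    rfl
  have hφ := phiN_pow_four M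
  let c := comm (fun s => a * MvPolynomial.pderiv j s) nab hnab (phiN M)
  have hc : ∑ i ∈ Finset.range 4, phiN M ^ i * c * phiN M ^ (4 - 1 - i) =
      -((a * MvPolynomial.pderiv j g3) • (1 : Module.End S3 M)) :=
    comm_trace (fun s => a * MvPolynomial.pderiv j s) nab hnab (phiN M) 4 g3 hφ
  have hD : MvPolynomial.pderiv j g3 = (MvPolynomial.C 3 : S3) * MvPolynomial.X j ^ 2 := by
    unfold g3
    fin_cases j <;> simp [Derivation.leibniz_pow, MvPolynomial.pderiv_X] <;> rfl
  let h : Fin k → (M →ₗ[S3] S3) := fun l => (LinearMap.proj l) ∘ₗ i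
  let m : Fin k → M := fun l => c (π (Pi.single l 1))
  have hac : ∀ x, a • c x = ∑ l, h l x • m l := by
    intro x
    rw [← map_smul, ← hi x]
    conv_lhs => rw [pi_eq_sum_univ' (i x), map_sum, map_sum]
    refine Finset.sum_congr rfl fun l _ => ?_
    rw [map_smul, map_smul]
    rfl
  let G : Module.End RR M := ∑ l, (frob (h l)).smulRight (m l)
  have hG : G ∈ TT S3 RR M := Submodule.sum_mem _ fun l _ => Submodule.subset_span ⟨_, _, rfl⟩
  have hGx : ∀ x, G x = -((a * (a * MvPolynomial.pderiv j g3)) • x) := by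
    intro x
    have e1 := LinearMap.congr_fun hc x
    rw [LinearMap.sum_apply] at e1
    have e2 : ∀ r : ℕ, (phiN M ^ r * c * phiN M ^ (4 - 1 - r)) x =
        wR ^ r • c (wR ^ (3 - r) • x) := by
      intro r
      rw [Module.End.mul_apply, Module.End.mul_apply, phiN_pow, phiN_pow]
    simp only [e2] at e1
    have e3 : a • (∑ r ∈ Finset.range 4, wR ^ r • c (wR ^ (3 - r) • x)) = G x := by
      rw [Finset.smul_sum]
      have e4 : ∀ r : ℕ, a • wR ^ r • c (wR ^ (3 - r) • x) =
          ∑ l, h l (wR ^ (3 - r) • x) • wR ^ r • m l := by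
        intro r
        rw [smul_comm, hac, Finset.smul_sum]
        exact Finset.sum_congr rfl fun l _ => smul_comm _ _ _
      simp only [e4]
      rw [Finset.sum_comm, LinearMap.sum_apply]
      refine Finset.sum_congr rfl fun l _ => ?_
      rw [LinearMap.smulRight_apply, frob_apply, Finset.sum_smul]
      exact Finset.sum_congr rfl fun r _ => (smul_assoc _ _ _).symm
    rw [← e3, e1]
    change a • -((a * MvPolynomial.pderiv j g3) • x) = _
    rw [smul_neg, smul_smul]
  rw [mem_JJ]
  have e5 : (a ^ 2 * MvPolynomial.X j ^ 2 : S3) • (1 : Module.End RR M) =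
      (MvPolynomial.C (-1/3) : S3) • G := by
    refine LinearMap.ext fun x => ?_
    rw [LinearMap.smul_apply, LinearMap.smul_apply, hGx, hD, ← neg_smul, smul_smul]
    change (a ^ 2 * MvPolynomial.X j ^ 2 : S3) • x = _
    congr 1
    have h3 : (MvPolynomial.C (-1/3) : S3) * MvPolynomial.C 3 = -1 := by
      rw [← map_mul]
      norm_num
    linear_combination (a ^ 2 * MvPolynomial.X j ^ 2 : S3) * h3
  rw [e5]
  exact Submodule.smul_mem _ _ hG

end RRpart

end Pool.Agent.V5helper89.NCCR
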